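import Pool.Agent.H446R2.BrunC
import Pool.Agent.H469R10.HO.Stmts

set_option autoImplicit false

namespace Pool.Agent.H154R3.Fund

open Finset Pool.Agent.H446R2

/-- truncation levels -/
def rr' (R I i : ℕ) : ℕ := 2 * R + 1 + 2 * (I - 1 - i)

lemma rr'_odd (R I i : ℕ) : Odd (rr' R I i) := by
  refine ⟨R + (I - 1 - i), ?_⟩
  unfold rr'
  ring

lemma exponent_sum' (R I : ℕ) :
    ∑ i ∈ range I, 2 ^ (i + 1) * (rr' R I i + 1) + 4 * I + (4 * R + 8)
    = (4 * R + 8) * 2 ^ I := by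
  induction I with
  | zero => simp
  | succ I ih =>
    rw [sum_range_succ']
    have h1 : ∑ i ∈ range I, 2 ^ (i + 1 + 1) * (rr' R (I + 1) (i + 1) + 1)
        = 2 * ∑ i ∈ range I, 2 ^ (i + 1) * (rr' R I i + 1) := by
      rw [mul_sum]
      apply sum_congr rfl
      intro i _
      have : rr' R (I + 1) (i + 1) = rr' R I i := by unfold rr'; omega
      rw [this, pow_succ 2 (i + 1)]
      ring
    rw [h1]
    have h2 : rr' R (I + 1) 0 = 2 * R + 1 + 2 * I := by unfold rr'; omega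
    rw [h2]
    have h3 : (4 * R + 8) * 2 ^ (I + 1) = 2 * ((4 * R + 8) * 2 ^ I) := by ring
    rw [h3, ← ih]
    ring

lemma geom_sum_bound' (R I : ℕ) : ∑ i ∈ range I, (1 / 2 : ℝ) ^ (rr' R I i) ≤ (1 / 2) ^ (2 * R) := by
  have h : ∀ I : ℕ, ∑ i ∈ range I, (1 / 2 : ℝ) ^ (rr' R I i) ≤
      (1 / 2) ^ (2 * R) - (1 / 2) ^ (2 * R + 2 * I) := by
    intro I
    induction I with
    | zero => simp
    | succ I ih =>
      rw [sum_range_succ']
      have h1 : ∀ i ∈ range I, (1 / 2 : ℝ) ^ (rr' R (I + 1) (i + 1)) =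
          (1 / 2 : ℝ) ^ (rr' R I i) := by
        intro i _
        have : rr' R (I + 1) (i + 1) = rr' R I i := by unfold rr'; omega
        rw [this]
      rw [sum_congr rfl h1]
      have h2 : rr' R (I + 1) 0 = (2 * R + 2 * I) + 1 := by unfold rr'; omega
      rw [h2, pow_succ]
      have h4 : (1 / 2 : ℝ) ^ (2 * R + 2 * (I + 1)) = (1 / 2 : ℝ) ^ (2 * R + 2 * I) * (1 / 4) := by
        rw [show 2 * R + 2 * (I + 1) = (2 * R + 2 * I) + 2 by ring, pow_add]
        norm_num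
      have h5 : (0 : ℝ) < (1 / 2 : ℝ) ^ (2 * R + 2 * I) := by positivity
      rw [h4]
      linarith
  have h1 := h I
  have h2 : (0 : ℝ) < (1 / 2 : ℝ) ^ (2 * R + 2 * I) := by positivity
  linarith

lemma prod_one_sub_ge (I : ℕ) (x : ℕ → ℝ) (h0 : ∀ i, 0 ≤ x i) (h1 : ∀ i, x i ≤ 1) :
    1 - ∑ i ∈ range I, x i ≤ ∏ i ∈ range I, (1 - x i) ∧ ∏ i ∈ range I, (1 - x i) ≤ 1 := by
  induction I with
  | zero => simp
  | succ I ih =>
    rw [sum_range_succ, prod_range_succ]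
    have hp : 0 ≤ ∏ i ∈ range I, (1 - x i) := prod_nonneg fun i _ => by linarith [h1 i]
    obtain ⟨a, b⟩ := ih
    have := h0 I
    have := h1 I
    constructor
    · nlinarith
    · nlinarith

/-- Two sided fundamental lemma. -/
theorem sieve_two (S : Finset ℕ) (hS : ∀ p ∈ S, p.Prime) (R : ℕ) (hR : 13 ≤ R) (I : ℕ)
    (hI : 1 ≤ I) (hSY : ∀ p ∈ S, p ≤ 2 ^ 2 ^ I) (m k : ℕ) :
    |(((Ioc m (m + k)).filter (fun n => ∀ p ∈ S, ¬ p ∣ n)).card : ℝ) -
        (∏ p ∈ S, (1 - dn p)) * k| ≤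
      2 * (2 ^ 24 * (1 / 2) ^ (2 * R)) * (∏ p ∈ S, (1 - dn p)) * k +
        (2 : ℝ) ^ ((4 * R + 8) * 2 ^ I) := by
  have hTp : ∀ i, ∀ p ∈ TT S i, p.Prime := fun i p hp => hS p (filter_subset _ _ hp)
  have hVge : ∀ i, Real.exp (-8) ≤ yb (TT S i) (rr' R I i) dn := by
    intro i
    refine le_trans ?_ (yb_dn_ge (hTp i) (rr' R I i) (rr'_odd R I i))
    apply Real.exp_le_exp.2
    linarith [TT_sum S hS i]
  have hVpos : ∀ i, 0 < yb (TT S i) (rr' R I i) dn := fun i => (Real.exp_pos _).trans_le (hVge i)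
  obtain ⟨U, L, hU, hL, hUL⟩ := blocks (TT S) (rr' R I) hTp (TT_disj S) (rr'_odd R I) hVpos I
  -- the indicator
  have h3 : ∀ n, ∏ i ∈ range I, ∏ p ∈ TT S i, (1 - ui n p) =
      if ∀ p ∈ S, ¬ p ∣ n then (1 : ℝ) else 0 := by
    intro n
    by_cases h : ∀ p ∈ S, ¬ p ∣ n
    · rw [if_pos h]
      apply Finset.prod_eq_one
      intro i _
      apply Finset.prod_eq_one
      intro p hp
      rw [ui, if_neg (h p (filter_subset _ _ hp))]
      ring
    · rw [if_neg h]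
      push Not at h
      obtain ⟨p, hp, hpn⟩ := h
      obtain ⟨i, hi, hpi⟩ := TT_cover S p hp I hI (hSY p hp)
      apply prod_eq_zero (mem_range.2 hi)
      apply prod_eq_zero hpi
      rw [ui, if_pos hpn]
      ring
  have h4 : (((Ioc m (m + k)).filter (fun n => ∀ p ∈ S, ¬ p ∣ n)).card : ℝ) =
      ∑ n ∈ Ioc m (m + k), ∏ i ∈ range I, ∏ p ∈ TT S i, (1 - ui n p) := by
    rw [Finset.card_filter]
    push_cast
    exact sum_congr rfl fun n _ => (h3 n).symm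
  have hcL : ∑ n ∈ Ioc m (m + k), L n ≤
      (((Ioc m (m + k)).filter (fun n => ∀ p ∈ S, ¬ p ∣ n)).card : ℝ) := by
    rw [h4]; exact sum_le_sum fun n _ => (hUL n).1
  have hcU : (((Ioc m (m + k)).filter (fun n => ∀ p ∈ S, ¬ p ∣ n)).card : ℝ) ≤
      ∑ n ∈ Ioc m (m + k), U n := by
    rw [h4]; exact sum_le_sum fun n _ => (hUL n).2
  -- main term
  have he8 : Real.exp 8 * Real.exp 8 ≤ 2 ^ 24 := by
    rw [← Real.exp_add]
    have h5 : Real.exp (8 + 8) = Real.exp 1 ^ 16 := by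
      rw [← Real.exp_nat_mul]; norm_num
    rw [h5]
    have h6 := Real.exp_one_lt_d9
    calc Real.exp 1 ^ 16 ≤ 2.7182818286 ^ 16 := pow_le_pow_left₀ (Real.exp_pos 1).le h6.le 16
      _ ≤ 2 ^ 24 := by norm_num
  set x : ℕ → ℝ := fun i => wb (TT S i) (rr' R I i) dn / yb (TT S i) (rr' R I i) dn with hx
  have hx0 : ∀ i, 0 ≤ x i := fun i =>
    div_nonneg (wb_nonneg _ _ _ fun p _ => dn_nonneg p) (hVpos i).le
  have hW : ∀ i, x i ≤ (1 / 2 : ℝ) ^ (rr' R I i) * 2 ^ 24 := by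
    intro i
    have h5 := wb_le (TT S i) (rr' R I i) dn (fun p _ => dn_nonneg p)
    have h6 : Real.exp (2 * ∑ p ∈ TT S i, dn p) ≤ Real.exp 8 := by
      apply Real.exp_le_exp.2
      linarith [TT_sum S hS i]
    simp only [hx]
    rw [div_le_iff₀ (hVpos i)]
    have h7 : (1 : ℝ) ≤ Real.exp 8 * yb (TT S i) (rr' R I i) dn := by
      have := mul_le_mul_of_nonneg_left (hVge i) (Real.exp_pos 8).le
      rwa [← Real.exp_add, add_neg_cancel, Real.exp_zero] at this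
    calc wb (TT S i) (rr' R I i) dn ≤ (1 / 2 : ℝ) ^ (rr' R I i) * Real.exp 8 :=
          h5.trans (mul_le_mul_of_nonneg_left h6 (by positivity))
      _ = (1 / 2 : ℝ) ^ (rr' R I i) * Real.exp 8 * 1 := by ring
      _ ≤ (1 / 2 : ℝ) ^ (rr' R I i) * Real.exp 8 * (Real.exp 8 * yb (TT S i) (rr' R I i) dn) :=
          mul_le_mul_of_nonneg_left h7 (by positivity)
      _ = (1 / 2 : ℝ) ^ (rr' R I i) * (Real.exp 8 * Real.exp 8) * yb (TT S i) (rr' R I i) dn := by
          ring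
      _ ≤ (1 / 2 : ℝ) ^ (rr' R I i) * 2 ^ 24 * yb (TT S i) (rr' R I i) dn := by
          apply mul_le_mul_of_nonneg_right _ (hVpos i).le
          exact mul_le_mul_of_nonneg_left he8 (by positivity)
  set σ : ℝ := ∑ i ∈ range I, x i with hσ
  have hσ1 : σ ≤ 2 ^ 24 * (1 / 2) ^ (2 * R) := by
    refine (sum_le_sum fun i _ => hW i).trans ?_
    rw [← sum_mul, mul_comm]
    exact mul_le_mul_of_nonneg_left (geom_sum_bound' R I) (by positivity)
  have hσ0 : 0 ≤ σ := sum_nonneg fun i _ => hx0 i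
  have hσ2 : (2 : ℝ) ^ 24 * (1 / 2) ^ (2 * R) ≤ 1 / 4 := by
    have : (1 / 2 : ℝ) ^ (2 * R) ≤ (1 / 2) ^ 26 :=
      pow_le_pow_of_le_one (by norm_num) (by norm_num) (by omega)
    calc (2 : ℝ) ^ 24 * (1 / 2) ^ (2 * R) ≤ 2 ^ 24 * (1 / 2) ^ 26 :=
          mul_le_mul_of_nonneg_left this (by positivity)
      _ = 1 / 4 := by norm_num
  have hσ3 : ∀ R' : ℕ, 27 ≤ R' → (1 / 2 : ℝ) ^ R' * 2 ^ 24 ≤ 1 := by
    intro R' h
    have : (1 / 2 : ℝ) ^ R' ≤ (1 / 2) ^ 27 :=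
      pow_le_pow_of_le_one (by norm_num) (by norm_num) h
    calc (1 / 2 : ℝ) ^ R' * 2 ^ 24 ≤ (1 / 2) ^ 27 * 2 ^ 24 :=
          mul_le_mul_of_nonneg_right this (by positivity)
      _ ≤ 1 := by norm_num
  have hx1 : ∀ i, x i ≤ 1 := fun i => (hW i).trans (hσ3 _ (by unfold rr'; omega))
  set P : ℝ := ∏ i ∈ range I, yb (TT S i) (rr' R I i) dn with hP
  have hP0 : 0 < P := prod_pos fun i _ => hVpos i
  set V : ℝ := ∏ p ∈ S, (1 - dn p) with hV
  have hdn1 : ∀ p ∈ S, dn p ≤ 1 := by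
    intro p hp
    unfold dn
    have := (hS p hp).one_le
    rw [div_le_one (by exact_mod_cast (hS p hp).pos)]
    exact_mod_cast this
  have hV' : V = ∏ i ∈ range I, ∏ p ∈ TT S i, (1 - dn p) := by
    rw [hV]
    have hSun : S = (range I).biUnion (TT S) := by
      ext p
      rw [mem_biUnion]
      constructor
      · intro hp
        obtain ⟨i, hi, hpi⟩ := TT_cover S p hp I hI (hSY p hp)
        exact ⟨i, mem_range.2 hi, hpi⟩
      · rintro ⟨i, _, hpi⟩
        exact filter_subset _ _ hpi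
    conv_lhs => rw [hSun]
    rw [Finset.prod_biUnion]
    intro i _ j _ hij
    rcases lt_or_gt_of_ne hij with h | h
    · exact TT_disj S i j h
    · exact (TT_disj S j i h).symm
  have hVP : V ≤ P := by
    rw [hV', hP]
    apply prod_le_prod
    · intro i _
      exact prod_nonneg fun p hp => by linarith [hdn1 p (filter_subset _ _ hp)]
    · intro i _
      exact yb_ge _ _ (rr'_odd R I i) dn (fun p _ => dn_nonneg p)
        (fun p hp => hdn1 p (filter_subset _ _ hp))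
  have hPV : P * (1 - σ) ≤ V := by
    have h5 := (prod_one_sub_ge I x hx0 hx1).1
    calc P * (1 - σ) ≤ P * ∏ i ∈ range I, (1 - x i) := mul_le_mul_of_nonneg_left h5 hP0.le
      _ = ∏ i ∈ range I, (yb (TT S i) (rr' R I i) dn * (1 - x i)) := by
          rw [hP, prod_mul_distrib]
      _ ≤ V := by
          rw [hV']
          apply prod_le_prod
          · intro i _
            exact mul_nonneg (hVpos i).le (by linarith [hx1 i])
          · intro i _
            have h6 := yb_le (TT S i) (rr' R I i) (rr'_odd R I i) dn (fun p _ => dn_nonneg p)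
              (fun p hp => hdn1 p (filter_subset _ _ hp))
            have h7 : yb (TT S i) (rr' R I i) dn * x i = wb (TT S i) (rr' R I i) dn := by
              simp only [hx]
              rw [mul_div_cancel₀ _ (hVpos i).ne']
            rw [mul_sub, mul_one, h7]
            linarith
  have hV0 : 0 ≤ V := le_trans (mul_nonneg hP0.le (by linarith)) hPV
  -- error term
  have hE : ∏ i ∈ range I, Nc (TT S i) (rr' R I i) ≤ (2 : ℝ) ^ ((4 * R + 8) * 2 ^ I) := by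
    have h5 : ∀ i ∈ range I, Nc (TT S i) (rr' R I i) ≤
        (2 : ℝ) ^ (2 ^ (i + 1) * (rr' R I i + 1)) := by
      intro i _
      have h6 := Nc_le (TT S i) (rr' R I i) (2 ^ 2 ^ (i + 1)) (by
        calc 4 = 2 ^ 2 ^ 1 := by norm_num
          _ ≤ 2 ^ 2 ^ (i + 1) := Nat.pow_le_pow_right (by norm_num)
              (Nat.pow_le_pow_right (by norm_num) (by omega))) (by
        intro p hp
        refine ⟨(hTp i p hp).one_le, ?_⟩
        rw [TT, mem_filter] at hp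
        exact hp.2.1)
      refine h6.trans (le_of_eq ?_)
      push_cast
      rw [← pow_mul]
    refine (prod_le_prod (fun i _ => by unfold Nc; positivity) h5).trans ?_
    rw [prod_pow_eq_pow_sum]
    apply pow_le_pow_right₀ (by norm_num)
    have := exponent_sum' R I
    omega
  have hk : (0 : ℝ) ≤ k := Nat.cast_nonneg k
  have hUb := (abs_le.1 (hU.sum_bound m k)).2
  have hLb := (abs_le.1 (hL.sum_bound m k)).1
  set c : ℝ := (((Ioc m (m + k)).filter (fun n => ∀ p ∈ S, ¬ p ∣ n)).card : ℝ)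
  set N : ℝ := (2 : ℝ) ^ ((4 * R + 8) * 2 ^ I)
  set σ' : ℝ := 2 ^ 24 * (1 / 2) ^ (2 * R)
  have hPV2 : P - V ≤ 2 * σ' * V := by
    have h5 : P * (3 / 4) ≤ V := le_trans (mul_le_mul_of_nonneg_left (by linarith) hP0.le) hPV
    have h6 : P * σ ≤ P * σ' := mul_le_mul_of_nonneg_left hσ1 hP0.le
    have h7 : 0 ≤ σ' := hσ0.trans hσ1
    have h8 : P * (3 / 4) * σ' ≤ V * σ' := mul_le_mul_of_nonneg_right h5 h7
    have h9 : 0 ≤ P * σ' := mul_nonneg hP0.le h7
    nlinarith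
  have hPV3 : V - P * (1 - σ) ≤ 2 * σ' * V := by
    have h6 : P * σ ≤ P * σ' := mul_le_mul_of_nonneg_left hσ1 hP0.le
    have h5 : P * (3 / 4) ≤ V := le_trans (mul_le_mul_of_nonneg_left (by linarith) hP0.le) hPV
    have h7 : 0 ≤ σ' := hσ0.trans hσ1
    have h8 : P * (3 / 4) * σ' ≤ V * σ' := mul_le_mul_of_nonneg_right h5 h7
    have h9 : 0 ≤ P * σ' := mul_nonneg hP0.le h7
    nlinarith
  have a1 := mul_le_mul_of_nonneg_left hPV2 hk
  have a2 := mul_le_mul_of_nonneg_left hPV3 hk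
  rw [abs_le]
  constructor
  · nlinarith
  · nlinarith

/-! ### Mertens type bounds -/

/-- the sifting product -/
noncomputable def VV (z : ℕ) : ℝ := ∏ p ∈ z.primesBelow, (1 - dn p)

lemma VV_lower (z : ℕ) (hz : 2 ≤ z) : 1 / ((z : ℝ) - 1) ≤ VV z := by
  induction z, hz using Nat.le_induction with
  | base => simp [VV, Nat.primesBelow_two]; norm_num
  | succ z hz ih =>
    have hz' : (2 : ℝ) ≤ z := by exact_mod_cast hz
    have h0 : (0 : ℝ) < (z : ℝ) - 1 := by linarith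
    have hV0 : 0 < VV z := lt_of_lt_of_le (by positivity) ih
    by_cases hp : z.Prime
    · have h1 : VV (z + 1) = VV z * (1 - dn z) := by
        rw [VV, VV, Nat.primesBelow, Finset.range_add_one, Finset.filter_insert, if_pos hp,
          Finset.prod_insert (by simp)]
        rw [Nat.primesBelow, mul_comm]
      rw [h1]
      have h2 : (1 : ℝ) - dn z = ((z : ℝ) - 1) / z := by unfold dn; field_simp
      have h3 : 1 / (((z + 1 : ℕ) : ℝ) - 1) = 1 / ((z : ℝ) - 1) * (1 - dn z) := by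
        rw [h2, div_mul_div_comm, one_mul, mul_comm ((z : ℝ) - 1) (z : ℝ), ← div_div,
          div_right_comm, div_self h0.ne']
        push_cast
        rw [add_sub_cancel_right]
      rw [h3]
      apply mul_le_mul_of_nonneg_right ih
      rw [h2]; positivity
    · have h1 : VV (z + 1) = VV z := by
        rw [VV, VV, Nat.primesBelow, Finset.range_add_one, Finset.filter_insert, if_neg hp]
        rfl
      rw [h1]
      refine le_trans ?_ ih
      push_cast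
      apply one_div_le_one_div_of_le h0
      linarith

/-- the completely multiplicative function `1 / n` -/
noncomputable def invF : ℕ →* ℝ where
  toFun n := (n : ℝ)⁻¹
  map_one' := by simp
  map_mul' a b := by push_cast; rw [mul_inv]

lemma VV_upper (z : ℕ) (hz : 2 ≤ z) : VV z ≤ 1 / Real.log z := by
  have hlog : 0 < Real.log z := Real.log_pos (by exact_mod_cast hz)
  have hf : ∀ {p : ℕ}, p.Prime → ‖invF p‖ < 1 := by
    intro p hp
    have h2 : (2 : ℝ) ≤ p := by exact_mod_cast hp.two_le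
    show ‖((p : ℝ))⁻¹‖ < 1
    rw [norm_inv, Real.norm_natCast]
    exact inv_lt_one_of_one_lt₀ (by linarith)
  obtain ⟨hs1, hs2⟩ :=
    EulerProduct.summable_and_hasSum_smoothNumbers_prod_primesBelow_geometric (f := invF) hf z
  have h1 : Real.log z ≤ ∏ p ∈ z.primesBelow, (1 - invF p)⁻¹ := by
    have h2 : Real.log z ≤ ∑ d ∈ Icc 1 (z - 1), ((d : ℝ))⁻¹ := by
      have h := log_add_one_le_harmonic (z - 1)
      rw [show z - 1 + 1 = z by omega] at h
      refine h.trans (le_of_eq ?_)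
      rw [harmonic_eq_sum_Icc]
      push_cast
      rfl
    refine h2.trans ?_
    rw [← hs2.tsum_eq]
    have hmem : ∀ d ∈ Icc 1 (z - 1), d ∈ z.smoothNumbers := by
      intro d hd
      rw [mem_Icc] at hd
      exact Nat.mem_smoothNumbers_of_lt (by omega) (by omega)
    have h3 : ∑ d ∈ Icc 1 (z - 1), ((d : ℝ))⁻¹ =
        ∑ d ∈ (Icc 1 (z - 1)).attach, invF ((⟨d.1, hmem d.1 d.2⟩ : z.smoothNumbers) : ℕ) := by
      rw [← Finset.sum_attach]
      rfl
    rw [h3]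
    have h4 : ∑ d ∈ (Icc 1 (z - 1)).attach, invF ((⟨d.1, hmem d.1 d.2⟩ : z.smoothNumbers) : ℕ) =
        ∑ e ∈ (Icc 1 (z - 1)).attach.map ⟨fun d => (⟨d.1, hmem d.1 d.2⟩ : z.smoothNumbers), by
          intro a b hab
          simp only [Subtype.mk.injEq] at hab
          exact Subtype.ext hab⟩, invF (e : ℕ) := by
      rw [Finset.sum_map]
      rfl
    rw [h4]
    apply hs2.summable.sum_le_tsum
    intro e _
    show 0 ≤ (((e : ℕ) : ℝ))⁻¹
    positivity
  have h5 : ∏ p ∈ z.primesBelow, (1 - invF p)⁻¹ = (VV z)⁻¹ := by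
    rw [VV, ← prod_inv_distrib]
    apply prod_congr rfl
    intro p _
    show (1 - ((p : ℝ))⁻¹)⁻¹ = (1 - dn p)⁻¹
    unfold dn
    rw [one_div]
  rw [h5] at h1
  have hV0 : 0 < VV z := lt_of_lt_of_le (by
    have : (2 : ℝ) ≤ z := by exact_mod_cast hz
    have : (0 : ℝ) < (z : ℝ) - 1 := by linarith
    positivity) (VV_lower z hz)
  rw [le_div_iff₀ hlog]
  have := mul_le_mul_of_nonneg_left h1 hV0.le
  rwa [mul_inv_cancel₀ hV0.ne'] at this

lemma exists_I (z : ℕ) (hz : 2 ≤ z) : ∃ I, 1 ≤ I ∧ z ≤ 2 ^ 2 ^ I ∧ 2 ^ 2 ^ I ≤ z ^ 2 := by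
  have hex : ∃ I, 1 ≤ I ∧ z ≤ 2 ^ 2 ^ I := by
    refine ⟨z, by omega, ?_⟩
    have h1 : z < 2 ^ z := Nat.lt_two_pow_self
    exact h1.le.trans (Nat.pow_le_pow_right (by norm_num) h1.le)
  classical
  obtain ⟨h1, h2⟩ := Nat.find_spec hex
  set I := Nat.find hex with hI
  refine ⟨I, h1, h2, ?_⟩
  rcases Nat.lt_or_ge 1 I with h | h
  · have h3 := Nat.find_min hex (m := I - 1) (by omega)
    have h4 : ¬ z ≤ 2 ^ 2 ^ (I - 1) := fun h5 => h3 ⟨by omega, h5⟩
    have h5 : 2 ^ 2 ^ I = (2 ^ 2 ^ (I - 1)) ^ 2 := by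
      rw [← pow_mul, ← pow_succ]
      congr 2
      omega
    rw [h5]
    exact Nat.pow_le_pow_left (by omega) 2
  · have h3 : I = 1 := by omega
    rw [h3]
    calc 2 ^ 2 ^ 1 = 2 ^ 2 := by norm_num
      _ ≤ z ^ 2 := Nat.pow_le_pow_left hz 2

open Filter in
lemma exists_R (κ : ℝ) (hκ : 0 < κ) : ∃ R : ℕ, 13 ≤ R ∧ 1 / ((8 * R + 18 : ℕ) : ℝ) ≤ κ ∧
    2 * (2 ^ 24 * (1 / 2 : ℝ) ^ (2 * R)) ≤ κ / (2 * ((8 * R + 18 : ℕ) : ℝ) ^ 8) := by
  have h1 : Tendsto (fun R : ℕ => (R : ℝ) ^ 8 / (4 : ℝ) ^ R) atTop (nhds 0) :=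
    tendsto_pow_const_div_const_pow_of_one_lt 8 (by norm_num)
  have h2 : ∀ᶠ R : ℕ in atTop, (R : ℝ) ^ 8 / (4 : ℝ) ^ R < κ / (2 ^ 26 * 26 ^ 8) :=
    h1.eventually_lt_const (by positivity)
  have h3 : ∀ᶠ R : ℕ in atTop, 1 / ((R : ℝ)) < κ := by
    have := (tendsto_one_div_atTop_nhds_zero_nat (𝕜 := ℝ)).eventually_lt_const hκ
    exact this
  obtain ⟨R, hR1, hR2, hR3⟩ := (h2.and (h3.and (eventually_ge_atTop 13))).exists
  have hR0 : (13 : ℝ) ≤ R := by exact_mod_cast hR3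
  refine ⟨R, hR3, ?_, ?_⟩
  · refine le_trans ?_ hR2.le
    apply one_div_le_one_div_of_le (by linarith)
    push_cast
    linarith
  · have h4 : ((8 * R + 18 : ℕ) : ℝ) ≤ 26 * R := by push_cast; linarith
    have h5 : ((8 * R + 18 : ℕ) : ℝ) ^ 8 ≤ (26 * R) ^ 8 :=
      pow_le_pow_left₀ (by positivity) h4 8
    have h6 : (1 / 2 : ℝ) ^ (2 * R) = 1 / 4 ^ R := by
      rw [pow_mul, show ((1 : ℝ) / 2) ^ 2 = 1 / 4 by norm_num, one_div_pow]
    have h7 : (0 : ℝ) < ((8 * R + 18 : ℕ) : ℝ) ^ 8 := by positivity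
    rw [h6, le_div_iff₀ (by positivity)]
    have h8 : (R : ℝ) ^ 8 * (2 ^ 26 * 26 ^ 8) ≤ κ * 4 ^ R := by
      rw [div_lt_div_iff₀ (by positivity) (by positivity)] at hR1
      exact hR1.le
    calc 2 * (2 ^ 24 * (1 / 4 ^ R)) * (2 * ((8 * R + 18 : ℕ) : ℝ) ^ 8)
        ≤ 2 * (2 ^ 24 * (1 / 4 ^ R)) * (2 * (26 * R) ^ 8) := by gcongr
      _ = (R : ℝ) ^ 8 * (2 ^ 26 * 26 ^ 8) / 4 ^ R := by ring
      _ ≤ κ := by
          rw [div_le_iff₀ (by positivity)]
          exact h8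

open Classical Pool.Agent.H469R10.HO in
theorem fundLemma : FundLemma := by
  intro κ hκ
  obtain ⟨R, hR, hR1, hR2⟩ := exists_R κ hκ
  set s : ℕ := 8 * R + 18 with hs
  have hs0 : (0 : ℝ) < s := by rw [hs]; positivity
  refine ⟨s, by omega, hR1, max 2 ⌈2 * (s : ℝ) ^ 8 / κ⌉₊, le_max_left _ _, ?_⟩
  intro z hz
  have hz2 : 2 ≤ z := (le_max_left _ _).trans hz
  have hz3 : 2 * (s : ℝ) ^ 8 / κ ≤ z :=
    (Nat.le_ceil _).trans (by exact_mod_cast (le_max_right _ _).trans hz)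
  have hzR : (2 : ℝ) ≤ z := by exact_mod_cast hz2
  have hVl := VV_lower z hz2
  have hV0 : 0 < VV z := lt_of_lt_of_le (by
    have : (0 : ℝ) < (z : ℝ) - 1 := by linarith
    positivity) hVl
  have hlog : 0 < Real.log z := Real.log_pos (by linarith)
  refine ⟨VV z, hV0, (VV_upper z hz2).trans ?_, ?_⟩
  · apply div_le_div_of_nonneg_right (by norm_num) hlog.le
  intro A Y hY
  obtain ⟨I, hI, hI1, hI2⟩ := exists_I z hz2
  have h1 := sieve_two z.primesBelow (fun p hp => Nat.prime_of_mem_primesBelow hp) R hR I hI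
    (fun p hp => (Nat.lt_of_mem_primesBelow hp).le.trans hI1) A Y
  have hfil : (Ioc A (A + Y)).filter (fun n => ∀ p ∈ z.primesBelow, ¬ p ∣ n) =
      (Ioc A (A + Y)).filter (fun n => ∀ p : ℕ, p.Prime → p < z → ¬ p ∣ n) := by
    apply Finset.filter_congr
    intro n _
    simp only [Nat.mem_primesBelow]
    constructor
    · intro h p hp hpz
      exact h p ⟨hpz, hp⟩
    · rintro h p ⟨hpz, hp⟩
      exact h p hp hpz
  have hcard : (((Ioc A (A + Y)).filter (fun n => ∀ p ∈ z.primesBelow, ¬ p ∣ n)).card : ℝ) =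
      (((Ioc A (A + Y)).filter (fun n => ∀ p : ℕ, p.Prime → p < z → ¬ p ∣ n)).card : ℝ) := by
    rw [← hfil]
  rw [hcard] at h1
  change |_ - VV z * Y| ≤ 2 * (2 ^ 24 * (1 / 2) ^ (2 * R)) * VV z * Y + _ at h1
  have hN : (2 : ℝ) ^ ((4 * R + 8) * 2 ^ I) ≤ κ / (2 * (s : ℝ) ^ 8) * VV z * Y := by
    have h2 : (2 : ℝ) ^ ((4 * R + 8) * 2 ^ I) ≤ (z : ℝ) ^ (8 * R + 16) := by
      have : 2 ^ ((4 * R + 8) * 2 ^ I) ≤ z ^ (8 * R + 16) := by
        calc 2 ^ ((4 * R + 8) * 2 ^ I) = (2 ^ 2 ^ I) ^ (4 * R + 8) := by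
              rw [← pow_mul, mul_comm]
          _ ≤ (z ^ 2) ^ (4 * R + 8) := Nat.pow_le_pow_left hI2 _
          _ = z ^ (8 * R + 16) := by rw [← pow_mul]; congr 1; ring
      exact_mod_cast this
    refine h2.trans ?_
    have h3 : (z : ℝ) ^ s ≤ Y := by exact_mod_cast hY
    have h4 : 1 / (z : ℝ) ≤ VV z := by
      refine le_trans ?_ hVl
      apply one_div_le_one_div_of_le (by linarith) (by linarith)
    have h5 : (z : ℝ) ^ (8 * R + 17) ≤ VV z * Y := by
      calc (z : ℝ) ^ (8 * R + 17) = 1 / z * (z : ℝ) ^ s := by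
            rw [hs, show 8 * R + 18 = (8 * R + 17) + 1 by ring, pow_succ _ (8 * R + 17), one_div,
              mul_comm ((z : ℝ) ^ (8 * R + 17)), inv_mul_cancel_left₀ (by linarith)]
        _ ≤ VV z * Y := mul_le_mul h4 h3 (by positivity) hV0.le
    have h6 : 1 ≤ κ / (2 * (s : ℝ) ^ 8) * z := by
      rw [div_le_iff₀ hκ] at hz3
      rw [div_mul_eq_mul_div, le_div_iff₀ (by positivity)]
      linarith
    calc (z : ℝ) ^ (8 * R + 16) = 1 * (z : ℝ) ^ (8 * R + 16) := by ring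
      _ ≤ κ / (2 * (s : ℝ) ^ 8) * z * (z : ℝ) ^ (8 * R + 16) :=
          mul_le_mul_of_nonneg_right h6 (by positivity)
      _ = κ / (2 * (s : ℝ) ^ 8) * (z : ℝ) ^ (8 * R + 17) := by ring
      _ ≤ κ / (2 * (s : ℝ) ^ 8) * (VV z * Y) := mul_le_mul_of_nonneg_left h5 (by positivity)
      _ = _ := by ring
  have hY0 : (0 : ℝ) ≤ VV z * Y := by positivity
  have h7 : 2 * (2 ^ 24 * (1 / 2 : ℝ) ^ (2 * R)) * VV z * Y ≤ κ / (2 * (s : ℝ) ^ 8) * VV z * Y := by
    rw [mul_assoc, mul_assoc (κ / _)]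
    exact mul_le_mul_of_nonneg_right hR2 hY0
  refine h1.trans ?_
  have h8 : κ / (s : ℝ) ^ 8 * VV z * Y = κ / (2 * (s : ℝ) ^ 8) * VV z * Y +
      κ / (2 * (s : ℝ) ^ 8) * VV z * Y := by
    field_simp
    ring
  rw [h8]
  exact add_le_add h7 hN

end Pool.Agent.H154R3.Fund
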