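import Pool.Agent.H469R10.HO.Stmts4

set_option autoImplicit false

namespace Pool.Agent.H154R3.Blocks

open Finset Pool.Agent.H469R10.HO

theorem taskK : TaskK := by
  rintro ⟨δ, η₀, hδ, hδ1, hη₀, X₀, hX₀, hH⟩
  refine ⟨max 1 (2 / δ), ?_⟩
  intro lam hlam e he he2
  have hlam1 : 1 ≤ lam := (le_max_left _ _).trans hlam
  have hlam0 : 0 < lam := by linarith
  have hlamδ : 2 ≤ lam * δ := by
    have h := (le_max_right 1 (2 / δ)).trans hlam
    rwa [div_le_iff₀ hδ] at h
  have hX₀' : (2 : ℝ) ≤ X₀ := by exact_mod_cast hX₀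
  refine ⟨η₀ * e / 8, min (e / 16) (1 / (2 * X₀)), by positivity, by positivity, ?_⟩
  intro c hc hcc
  have hce : c ≤ e / 16 := hcc.trans (min_le_left _ _)
  have hcX : c ≤ 1 / (2 * X₀) := hcc.trans (min_le_right _ _)
  have hpi : (3 : ℝ) < Real.pi := Real.pi_gt_three
  -- key facts for each j
  have key : ∀ j : ℕ, 1 ≤ j → ∃ S : Finset ℕ, S.Nonempty ∧
      (∀ p ∈ S, p.Prime ∧ |uu c lam p - xx j| ≤ e) ∧
      ∀ p ∈ S, η₀ * e / 8 * p ≤ S.card * xx j * Real.log p := by
    intro j hj
    set x : ℝ := xx j with hx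
    have hj' : (1 : ℝ) ≤ j := by exact_mod_cast hj
    have hx1 : 3 / 2 ≤ x := by
      rw [hx, xx]
      nlinarith
    have hx0 : 0 < x := by linarith
    have hxe : x / 2 ≤ x - e := by linarith
    have hxe0 : 0 < x - e := by linarith
    set t : ℝ := (x - e) / c with ht
    have ht1 : x / (2 * c) ≤ t := by
      rw [ht, div_le_div_iff₀ (by positivity) hc]
      nlinarith
    have htc : 8 * x / e ≤ x / (2 * c) := by
      rw [div_le_div_iff₀ he (by positivity)]
      nlinarith
    have htX : (X₀ : ℝ) ≤ x / (2 * c) := by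
      rw [le_div_iff₀ (by positivity)]
      have h1 : c * (2 * X₀) ≤ 1 := by
        rwa [le_div_iff₀ (by positivity)] at hcX
      nlinarith
    have htt : 1 ≤ x / (2 * c) := by linarith
    have ht0 : 1 ≤ t := htt.trans ht1
    have htpos : 0 < t := by linarith
    set a : ℝ := t ^ lam with ha
    have hat : t ≤ a := by
      calc t = t ^ (1 : ℝ) := (Real.rpow_one t).symm
        _ ≤ t ^ lam := Real.rpow_le_rpow_of_exponent_le ht0 hlam1
    have ha0 : 0 < a := by linarith
    have ha8 : 8 * x / e ≤ a := htc.trans (ht1.trans hat)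
    have haX : (X₀ : ℝ) ≤ a := htX.trans (ht1.trans hat)
    have hae : 8 ≤ a * (e / x) := by
      rw [div_le_iff₀ he] at ha8
      rw [← mul_div_assoc, le_div_iff₀ hx0]
      exact ha8
    have haδ : 4 * x / e ≤ a ^ δ := by
      have h1 : t ^ (2 : ℝ) ≤ a ^ δ := by
        rw [ha, ← Real.rpow_mul htpos.le]
        exact Real.rpow_le_rpow_of_exponent_le ht0 hlamδ
      refine le_trans ?_ h1
      have h2 : 8 * x / e ≤ t := htc.trans ht1
      have h3 : t * t = t ^ (2 : ℝ) := by
        rw [show (2 : ℝ) = ((2 : ℕ) : ℝ) by norm_num, Real.rpow_natCast]; ring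
      rw [← h3]
      have h4 : 4 * x / e ≤ 8 * x / e := div_le_div_of_nonneg_right (by linarith) he.le
      nlinarith
    -- X and Y
    set X : ℕ := ⌈a⌉₊ with hX
    set Y : ℕ := ⌊a * (e / x)⌋₊ with hY
    have hXa : a ≤ X := Nat.le_ceil a
    have hXa1 : (X : ℝ) < a + 1 := Nat.ceil_lt_add_one ha0.le
    have hYa : (Y : ℝ) ≤ a * (e / x) := Nat.floor_le (by positivity)
    have hYa1 : a * (e / x) - 1 < Y := by
      have := Nat.lt_floor_add_one (a * (e / x))
      linarith
    have hex : e / x ≤ 1 / 3 := by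
      rw [div_le_div_iff₀ hx0 (by norm_num)]
      linarith
    have ha1 : 8 ≤ a := by nlinarith
    have hXX : X₀ ≤ X := by
      have : (X₀ : ℝ) ≤ X := haX.trans hXa
      exact_mod_cast this
    have hYX : Y ≤ X := by
      have : (Y : ℝ) ≤ X := by nlinarith
      exact_mod_cast this
    have hY2 : a * (e / x) / 2 ≤ Y := by linarith
    have hXY : (X : ℝ) ^ (1 - δ) ≤ Y := by
      have h1 : (X : ℝ) ≤ 2 * a := by linarith
      have h2 : (X : ℝ) ^ (1 - δ) ≤ (2 * a) ^ (1 - δ) :=
        Real.rpow_le_rpow (by positivity) h1 (by linarith)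
      have h3 : (2 * a) ^ (1 - δ) = (2 * a) / (2 * a) ^ δ := by
        rw [Real.rpow_sub (by positivity), Real.rpow_one]
      have h4 : a ^ δ ≤ (2 * a) ^ δ :=
        Real.rpow_le_rpow ha0.le (by linarith) hδ.le
      have h5 : 4 * x / e ≤ (2 * a) ^ δ := haδ.trans h4
      refine h2.trans (le_trans ?_ hY2)
      rw [h3, div_le_iff₀ (by positivity)]
      calc 2 * a = a * (e / x) / 2 * (4 * x / e) := by field_simp; ring
        _ ≤ a * (e / x) / 2 * (2 * a) ^ δ := mul_le_mul_of_nonneg_left h5 (by positivity)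
    have hmain := hH X Y hXX hXY hYX
    -- upper end
    set b : ℝ := ((x + e) / c) ^ lam with hb
    have hab : a * (1 + 2 * (e / x)) ≤ b := by
      have h1 : (x + e) / c = t * (1 + 2 * e / (x - e)) := by
        rw [ht]
        field_simp
        ring
      have h2 : 0 ≤ 2 * e / (x - e) := by positivity
      have h3 : b = a * (1 + 2 * e / (x - e)) ^ lam := by
        rw [hb, h1, Real.mul_rpow htpos.le (by linarith)]
      rw [h3]
      apply mul_le_mul_of_nonneg_left _ ha0.le
      have h4 : 1 + 2 * (e / x) ≤ 1 + 2 * e / (x - e) := by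
        have : 2 * (e / x) ≤ 2 * e / (x - e) := by
          rw [← mul_div_assoc]
          exact div_le_div_of_nonneg_left (by positivity) hxe0 (by linarith)
        linarith
      refine h4.trans ?_
      calc 1 + 2 * e / (x - e) = (1 + 2 * e / (x - e)) ^ (1 : ℝ) := (Real.rpow_one _).symm
        _ ≤ (1 + 2 * e / (x - e)) ^ lam :=
            Real.rpow_le_rpow_of_exponent_le (by linarith) hlam1
    have hXYb : (X : ℝ) + Y ≤ b := by nlinarith
    have hlogX : 0 < Real.log X := Real.log_pos (by linarith)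
    set S := (Ioc X (X + Y)).filter Nat.Prime with hS
    have hcard : η₀ * (a * (e / x) / 2) / Real.log X ≤ (S.card : ℝ) := by
      refine le_trans ?_ hmain
      apply div_le_div_of_nonneg_right _ hlogX.le
      exact mul_le_mul_of_nonneg_left hY2 hη₀.le
    refine ⟨S, ?_, ?_, ?_⟩
    · rw [← Finset.card_pos]
      have : (0 : ℝ) < S.card := lt_of_lt_of_le (by positivity) hcard
      exact_mod_cast this
    · intro p hp
      rw [hS, mem_filter, mem_Ioc] at hp
      refine ⟨hp.2, ?_⟩
      have hp1 : (X : ℝ) < p := by exact_mod_cast hp.1.1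
      have hp2 : (p : ℝ) ≤ X + Y := by exact_mod_cast hp.1.2
      have hp0 : (0 : ℝ) ≤ p := by positivity
      have h1 : t ≤ (p : ℝ) ^ (1 / lam) := by
        have h2 : a ^ (1 / lam) ≤ (p : ℝ) ^ (1 / lam) :=
          Real.rpow_le_rpow ha0.le (by linarith) (by positivity)
        rwa [ha, ← Real.rpow_mul htpos.le, mul_one_div_cancel hlam0.ne', Real.rpow_one] at h2
      have h3 : (p : ℝ) ^ (1 / lam) ≤ (x + e) / c := by
        have h2 : (p : ℝ) ^ (1 / lam) ≤ b ^ (1 / lam) :=
          Real.rpow_le_rpow hp0 (by linarith) (by positivity)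
        rwa [hb, ← Real.rpow_mul (by positivity), mul_one_div_cancel hlam0.ne',
          Real.rpow_one] at h2
      rw [uu, abs_le]
      constructor
      · rw [ht, div_le_iff₀ hc] at h1
        linarith
      · rw [le_div_iff₀ hc] at h3
        linarith
    · intro p hp
      rw [hS, mem_filter, mem_Ioc] at hp
      have hp1 : (X : ℝ) < p := by exact_mod_cast hp.1.1
      have hp2 : (p : ℝ) ≤ X + Y := by exact_mod_cast hp.1.2
      have hX0 : (0 : ℝ) < X := by linarith
      have hlog : Real.log X ≤ Real.log p := Real.log_le_log hX0 hp1.le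
      have hYX' : (Y : ℝ) ≤ X := by exact_mod_cast hYX
      have hp4 : (p : ℝ) ≤ 4 * a := by linarith
      calc η₀ * e / 8 * p ≤ η₀ * e / 8 * (4 * a) := mul_le_mul_of_nonneg_left hp4 (by positivity)
        _ = η₀ * (a * (e / x) / 2) / Real.log X * x * Real.log X := by field_simp; ring
        _ ≤ S.card * x * Real.log p := by
            apply mul_le_mul _ hlog hlogX.le (by positivity)
            exact mul_le_mul_of_nonneg_right hcard hx0.le
  choose! B hB using key
  refine ⟨fun j => if 1 ≤ j then B j else ∅, ?_, ?_⟩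
  · intro j p hp
    beta_reduce at hp
    by_cases hj : 1 ≤ j
    · rw [if_pos hj] at hp
      exact ⟨hj, (hB j hj).2.1 p hp⟩
    · rw [if_neg hj] at hp
      simp at hp
  · intro j hj
    beta_reduce
    rw [if_pos hj]
    exact ⟨(hB j hj).1, (hB j hj).2.2⟩

end Pool.Agent.H154R3.Blocks
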