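import Pool.Agent.H154R3.Val

set_option autoImplicit false
set_option linter.unusedSectionVars false
set_option linter.unusedVariables false

namespace Pool.Agent.H154R3.Asanuma

open Polynomial

variable (p : ℕ) [hp : Fact p.Prime] (k : Type*) [Field k] [CharP k p]

/-- `f = F ^ (p ^ 2) - N - N ^ (p ^ 2 + p)` in `k[F][N]` -/
noncomputable def fF : P k := C X ^ (p ^ 2) - X - X ^ (p ^ 2 + p)

lemma charP_P : CharP (P k) p := inferInstance

lemma derivative_pow_p (x : P k) : derivative (x ^ p) = 0 := by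
  have : CharP (P k) p := charP_P p k
  rw [derivative_pow]
  have h : ((p : ℕ) : P k) = 0 := CharP.cast_eq_zero _ p
  have h2 : (C ((p : ℕ) : Polynomial k) : P k) = 0 := by
    have : CharP (Polynomial k) p := inferInstance
    rw [CharP.cast_eq_zero, C_0]
  rw [h2]; ring

lemma derivative_fF : derivative (fF p k) = -1 := by
  have h1 : (C X ^ (p ^ 2) : P k) = ((C X) ^ p) ^ p := by rw [← pow_mul, pow_two]
  have h2 : (X ^ (p ^ 2 + p) : P k) = (X ^ (p + 1)) ^ p := by rw [← pow_mul]; congr 1; ring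
  rw [fF, derivative_sub, derivative_sub, h1, h2, derivative_pow_p, derivative_pow_p, derivative_X]
  ring

lemma nc (x y : P k) (hy : y ≠ 0) : x ^ p + y ^ p * fF p k ≠ 0 := by
  intro h
  have h1 := congrArg derivative h
  rw [derivative_add, derivative_mul, derivative_pow_p, derivative_pow_p, derivative_fF,
    derivative_zero] at h1
  have h2 : y ^ p = 0 := by linear_combination -h1
  exact hy (pow_eq_zero_iff hp.out.ne_zero |>.mp h2)

lemma nc' (x y : P k) (hy : y ≠ 0) : x ^ p - y ^ p * fF p k ≠ 0 := by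
  intro h
  have h1 := congrArg derivative h
  rw [derivative_sub, derivative_mul, derivative_pow_p, derivative_pow_p, derivative_fF,
    derivative_zero] at h1
  have h2 : y ^ p = 0 := by linear_combination h1
  exact hy (pow_eq_zero_iff hp.out.ne_zero |>.mp h2)

lemma fF_ne_zero : fF p k ≠ 0 := by
  intro h
  have := derivative_fF p k
  rw [h, derivative_zero] at this
  exact one_ne_zero (neg_eq_zero.mp this.symm)

lemma charP_H : CharP (H k) p := by
  have h : Function.Injective (HahnSeries.C : P k →+* H k) := HahnSeries.C_injective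
  have : CharP (P k) p := charP_P p k
  exact charP_of_injective_ringHom h p

lemma charP_R0 : CharP (R0 k) p := by
  have h : Function.Injective (HahnSeries.C : P k →+* R0 k) := HahnSeries.C_injective
  have : CharP (P k) p := charP_P p k
  exact charP_of_injective_ringHom h p

lemma lc_pow (x : H k) (n : ℕ) : (x ^ n).leadingCoeff = x.leadingCoeff ^ n := by
  induction n with
  | zero => simp
  | succ n ih => rw [pow_succ, HahnSeries.leadingCoeff_mul, ih, pow_succ]

variable {p k}

/-- no cancellation -/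
lemma nc_order {X Y L : H k} (hX : X ≠ 0) (hY : Y ≠ 0) (hL : L.leadingCoeff = fF p k) :
    X ^ p + Y ^ p * L ≠ 0 ∧ (X ^ p + Y ^ p * L).order ≤ (X ^ p).order ∧
      (X ^ p + Y ^ p * L).order ≤ (Y ^ p * L).order := by
  have hL0 : L ≠ 0 := by
    intro h
    rw [h, HahnSeries.leadingCoeff_zero] at hL
    exact fF_ne_zero p k hL.symm
  have hXp : X ^ p ≠ 0 := pow_ne_zero _ hX
  have hYp : Y ^ p * L ≠ 0 := mul_ne_zero (pow_ne_zero _ hY) hL0
  have key : ∀ γ, γ = min (X ^ p).order (Y ^ p * L).order →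
      (X ^ p + Y ^ p * L).coeff γ ≠ 0 := by
    intro γ hγ
    rw [HahnSeries.coeff_add]
    rcases lt_trichotomy (X ^ p).order (Y ^ p * L).order with h | h | h
    · rw [min_eq_left h.le] at hγ
      rw [hγ, HahnSeries.coeff_eq_zero_of_lt_order h, add_zero]
      exact fun h0 => hXp (HahnSeries.coeff_order_eq_zero.mp h0)
    · rw [min_eq_left h.le] at hγ
      rw [hγ]
      nth_rewrite 2 [h]
      rw [← HahnSeries.leadingCoeff_eq, ← HahnSeries.leadingCoeff_eq, lc_pow,
        HahnSeries.leadingCoeff_mul, lc_pow, hL]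
      exact nc p k _ _ (HahnSeries.leadingCoeff_ne_zero.mpr hY)
    · rw [min_eq_right h.le] at hγ
      rw [hγ, HahnSeries.coeff_eq_zero_of_lt_order h, zero_add]
      exact fun h0 => hYp (HahnSeries.coeff_order_eq_zero.mp h0)
  have h1 := key _ rfl
  have h2 := HahnSeries.order_le_of_coeff_ne_zero h1
  exact ⟨HahnSeries.ne_zero_of_coeff_ne_zero h1, h2.trans (min_le_left _ _),
    h2.trans (min_le_right _ _)⟩

/-- no cancellation, for differences -/
lemma nc_diff {X Y Z L : H k} (hX : X ≠ 0) (hY : Y ≠ 0) (hL : L.leadingCoeff = fF p k)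
    (hZ : Z + Y ^ p * L = X ^ p) : Z.order ≤ (X ^ p).order := by
  have hL0 : L ≠ 0 := by
    intro h
    rw [h, HahnSeries.leadingCoeff_zero] at hL
    exact fF_ne_zero p k hL.symm
  have hXp : X ^ p ≠ 0 := pow_ne_zero _ hX
  have hYp : Y ^ p * L ≠ 0 := mul_ne_zero (pow_ne_zero _ hY) hL0
  have hZc : ∀ γ, Z.coeff γ = (X ^ p).coeff γ - (Y ^ p * L).coeff γ := by
    intro γ
    rw [← hZ, HahnSeries.coeff_add]; ring
  have key : ∀ γ, γ = min (X ^ p).order (Y ^ p * L).order → Z.coeff γ ≠ 0 := by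
    intro γ hγ
    rw [hZc]
    rcases lt_trichotomy (X ^ p).order (Y ^ p * L).order with h | h | h
    · rw [min_eq_left h.le] at hγ
      rw [hγ, HahnSeries.coeff_eq_zero_of_lt_order h, sub_zero]
      exact fun h0 => hXp (HahnSeries.coeff_order_eq_zero.mp h0)
    · rw [min_eq_left h.le] at hγ
      rw [hγ]
      nth_rewrite 2 [h]
      rw [← HahnSeries.leadingCoeff_eq, ← HahnSeries.leadingCoeff_eq, lc_pow,
        HahnSeries.leadingCoeff_mul, lc_pow, hL]
      exact nc' p k _ _ (HahnSeries.leadingCoeff_ne_zero.mpr hY)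
    · rw [min_eq_right h.le] at hγ
      rw [hγ, HahnSeries.coeff_eq_zero_of_lt_order h, zero_sub, neg_ne_zero]
      exact fun h0 => hYp (HahnSeries.coeff_order_eq_zero.mp h0)
  have h2 := HahnSeries.order_le_of_coeff_ne_zero (key _ rfl)
  exact h2.trans (min_le_left _ _)

lemma nc_right {X Y L : H k} (hY : Y ≠ 0) (hL : L.leadingCoeff = fF p k) :
    X ^ p + Y ^ p * L ≠ 0 ∧ (X ^ p + Y ^ p * L).order ≤ (Y ^ p * L).order := by
  by_cases hX : X = 0
  · have hL0 : L ≠ 0 := by
      intro h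
      rw [h, HahnSeries.leadingCoeff_zero] at hL
      exact fF_ne_zero p k hL.symm
    rw [hX, zero_pow hp.out.ne_zero, zero_add]
    exact ⟨mul_ne_zero (pow_ne_zero _ hY) hL0, le_refl _⟩
  · obtain ⟨h1, -, h2⟩ := nc_order hX hY hL
    exact ⟨h1, h2⟩

lemma fst_le {x y : Gam} (h : x ≤ y) : (ofLex x).1 ≤ (ofLex y).1 := by
  rw [Prod.Lex.le_iff] at h
  rcases h with h | ⟨h, -⟩
  · exact h.le
  · exact h.le

lemma snd_le {x y : Gam} (h : x ≤ y) (h1 : (ofLex y).1 ≤ (ofLex x).1) :
    (ofLex x).2 ≤ (ofLex y).2 := by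
  rw [Prod.Lex.le_iff] at h
  rcases h with h | ⟨-, h⟩
  · exact absurd h (not_lt.mpr h1)
  · exact h

lemma alg {A : Type*} [CommRing A] [CharP A p] {z F N L : A}
    (hrel : z ^ p * L + N + N ^ (p ^ 2 + p) = F ^ (p ^ 2)) :
    ∃ M G : A, M + N ^ (p + 1) = F ^ p ∧ N + z ^ p * L = M ^ p ∧
      M = G ^ p + (N * z) ^ p * L := by
  have h2 : (p + 1) * p = p ^ 2 + p := by ring
  have h3 : p * p = p ^ 2 := by ring
  have e1 : N + z ^ p * L = (F ^ p - N ^ (p + 1)) ^ p := by
    rw [sub_pow_char, ← pow_mul, ← pow_mul, h2, h3]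
    linear_combination hrel
  refine ⟨F ^ p - N ^ (p + 1), F - N * (F ^ p - N ^ (p + 1)), by ring, e1, ?_⟩
  rw [sub_pow_char, mul_pow N, mul_pow N, ← e1, pow_succ]
  ring

/-- The heart of the argument: the relation `z ^ p L = F ^ (p ^ 2) - N - N ^ (p ^ 2 + p)`
in `H`, with the leading form of `L` known, forces all second components to vanish. -/
theorem core {z F N L : H k} (hz : z ≠ 0) (hF : F ≠ 0) (hN : N ≠ 0)
    (hrel : z ^ p * L + N + N ^ (p ^ 2 + p) = F ^ (p ^ 2))
    (hL : L.leadingCoeff = fF p k)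
    (hL1 : (ofLex L.order).1 = -(p : ℚ)) (hL2 : (ofLex L.order).2 = 0)
    (hz1 : (ofLex z.order).1 = 1) (hz2 : (ofLex z.order).2 ≤ 0)
    (hF1 : (ofLex F.order).1 = 0) (hF2 : (ofLex F.order).2 ≤ 0)
    (hN1 : (ofLex N.order).1 = 0) (hN2 : (ofLex N.order).2 ≤ 0) :
    (ofLex z.order).2 = 0 ∧ (ofLex F.order).2 = 0 ∧ (ofLex N.order).2 = 0 := by
  have hch : CharP (H k) p := charP_H p k
  have hL0 : L ≠ 0 := by
    intro h
    rw [h, HahnSeries.leadingCoeff_zero] at hL
    exact fF_ne_zero p k hL.symm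
  obtain ⟨M, G, e3, e1, e2⟩ :=
    alg (A := H k) (p := p) (z := z) (F := F) (N := N) (L := L) hrel
  have hNz : N * z ≠ 0 := mul_ne_zero hN hz
  have hM0 : M ≠ 0 := by
    rw [e2]
    exact (nc_right hNz hL).1
  have i1 : N.order ≤ (M ^ p).order := nc_diff hM0 hz hL e1
  have i2 : M.order ≤ ((N * z) ^ p * L).order := by
    have := (nc_right (X := G) hNz hL).2
    rwa [← e2] at this
  have hp2 : (2 : ℤ) ≤ p := by exact_mod_cast hp.out.two_le
  have hpQ : (2 : ℚ) ≤ p := by exact_mod_cast hp.out.two_le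
  -- components of the right-hand side of `i2`
  have c1 : (ofLex ((N * z) ^ p * L).order).1 = 0 := by
    rw [o1_mul (pow_ne_zero _ hNz) hL0, o1_pow, o1_mul hN hz, hN1, hz1, hL1]; ring
  have c2 : (ofLex ((N * z) ^ p * L).order).2 =
      p * ((ofLex N.order).2 + (ofLex z.order).2) := by
    rw [o2_mul (pow_ne_zero _ hNz) hL0, o2_pow, o2_mul hN hz, hL2]; ring
  have m1 : (ofLex M.order).1 ≤ 0 := by rw [← c1]; exact fst_le i2
  have m2 : 0 ≤ (ofLex M.order).1 := by
    have h := fst_le i1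
    rw [hN1, o1_pow] at h
    by_contra hneg
    push Not at hneg
    nlinarith
  have m3 : (ofLex M.order).1 = 0 := le_antisymm m1 m2
  have j1 : (ofLex N.order).2 ≤ p * (ofLex M.order).2 := by
    have h := snd_le i1 (by rw [o1_pow, m3, hN1]; simp)
    rwa [o2_pow] at h
  have j2 : (ofLex M.order).2 ≤ p * ((ofLex N.order).2 + (ofLex z.order).2) := by
    have h := snd_le i2 (by rw [c1, m3])
    rwa [c2] at h
  have hm0 : (ofLex M.order).2 = 0 := by
    nlinarith
  have hN0 : (ofLex N.order).2 = 0 := by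
    rw [hm0] at j2
    nlinarith
  have hz0 : (ofLex z.order).2 = 0 := by
    rw [hm0, hN0] at j2
    nlinarith
  refine ⟨hz0, ?_, hN0⟩
  have hFp : F ^ p ≠ 0 := pow_ne_zero _ hF
  have h0 : (0 : Gam) ≤ (F ^ p).order := by
    have hMo : M.order = 0 := by
      apply ofLex.injective
      exact Prod.ext m3 hm0
    have hNo : (N ^ (p + 1)).order = 0 := by
      apply ofLex.injective
      exact Prod.ext (by rw [o1_pow, hN1, mul_zero]; rfl) (by rw [o2_pow, hN0, mul_zero]; rfl)
    rw [← e3] at hFp ⊢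
    have := HahnSeries.min_order_le_order_add (x := M) (y := N ^ (p + 1)) hFp
    rwa [hMo, hNo, min_self] at this
  have h1 := snd_le h0 (by rw [o1_pow, hF1]; simp)
  rw [o2_pow] at h1
  have h2 : (0 : ℤ) ≤ p * (ofLex F.order).2 := h1
  nlinarith

end Pool.Agent.H154R3.Asanuma
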