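import Pool.Agent.H154R3.Ident

set_option autoImplicit false
set_option linter.unusedSectionVars false
set_option linter.unusedVariables false

namespace Pool.Agent.H154R3.Ident

open Polynomial

variable (p : ℕ) [hp : Fact p.Prime]

section

variable {S : Type*} [CommRing S] [CharP S p]

lemma ext_idents {ζ F N L σ : S}
    (hrel : ζ ^ p * L + N + N ^ (p ^ 2 + p) = F ^ (p ^ 2))
    (hσ : σ ^ p = ζ ^ (2 * (p - 1)) * σ + (ζ ^ (p - 2) * ζ ^ (p - 1) * (F ^ p - N ^ (p + 1)) - L)) :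
    ∃ x y : S, sR p x y ζ = (F ^ p - N ^ (p + 1)) + ζ * σ ∧ FR p x y ζ = F ∧ NR p x y ζ = N ∧
      LR p x y ζ = L := by
  set M : S := F ^ p - N ^ (p + 1) with hM
  set s : S := M + ζ * σ with hs
  have hMp : M ^ p = ζ ^ p * L + N := by
    rw [hM, sub_pow_char, ← pow_mul, ← pow_mul]
    have h1 : p * p = p ^ 2 := by ring
    have h2 : (p + 1) * p = p ^ 2 + p := by ring
    rw [h1, h2, ← hrel]; ring
  have k1 : ζ ^ p * ζ ^ (2 * (p - 1)) = ζ * kap p ζ := by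
    rw [kap, ← z_r p ζ]; ring
  have k2 : ζ ^ p * (ζ ^ (p - 2) * ζ ^ (p - 1)) = kap p ζ := by
    rw [← z_r p ζ, kap]
    have : ζ * ζ ^ (p - 1) * (ζ ^ (p - 2) * ζ ^ (p - 1)) =
      (ζ * ζ ^ (p - 2)) * ζ ^ (p - 1) * ζ ^ (p - 1) := by ring
    rw [this, z_r']; ring
  have k3 : ζ ^ (p - 2) * ζ ^ (p - 1) * ζ = ζ ^ (2 * (p - 1)) := by
    have := z_r' p ζ
    calc ζ ^ (p - 2) * ζ ^ (p - 1) * ζ = (ζ * ζ ^ (p - 2)) * ζ ^ (p - 1) := by ring
      _ = ζ ^ (2 * (p - 1)) := by rw [this]; ring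
  have r2 : s ^ p = N + kap p ζ * s := by
    have e : ζ ^ p * σ ^ p = (ζ ^ p * ζ ^ (2 * (p - 1))) * σ +
        (ζ ^ p * (ζ ^ (p - 2) * ζ ^ (p - 1))) * M - ζ ^ p * L := by
      rw [hσ]; ring
    rw [hs, add_pow_char, mul_pow, e, hMp, k1, k2]
    ring
  have r3 : sR p (σ + tau p ζ s N) (F - s ^ (p + 1)) ζ = s := by
    rw [sR, sub_pow_char, mul_add, z_tau p r2, ← pow_mul]
    have h2 : (p + 1) * p = p ^ 2 + p := by ring
    rw [h2, hs, hM]; ring
  have r5 : NR p (σ + tau p ζ s N) (F - s ^ (p + 1)) ζ = N := by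
    rw [NR, r3, r2]; ring
  refine ⟨σ + tau p ζ s N, F - s ^ (p + 1), r3, ?_, r5, ?_⟩
  · rw [FR, r3]; ring
  · rw [LR, sigR, r3, r5]
    have e : σ + tau p ζ s N - tau p ζ s N = σ := by ring
    rw [e, hσ, hs, mul_add, ← mul_assoc, k3]
    ring

end

section

universe u v

variable {k : Type u} {R : Type v} [Field k] [CommRing R] [IsDomain R] [CharP R p]

theorem exists_hom (ι : k →+* R) (zz FF NN LL : R)
    (hrel : zz ^ p * LL + NN + NN ^ (p ^ 2 + p) = FF ^ (p ^ 2)) :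
    ∃ (S : Type v) (_ : CommRing S) (j : R →+* S) (Φ : MvPolynomial (Fin 3) k →+* S),
      Function.Injective j ∧ (∀ a, Φ (MvPolynomial.C a) = j (ι a)) ∧
      Φ (MvPolynomial.X 2) = j zz ∧
      Φ (FR p (MvPolynomial.X 0) (MvPolynomial.X 1) (MvPolynomial.X 2)) = j FF ∧
      Φ (NR p (MvPolynomial.X 0) (MvPolynomial.X 1) (MvPolynomial.X 2)) = j NN ∧
      Φ (LR p (MvPolynomial.X 0) (MvPolynomial.X 1) (MvPolynomial.X 2)) = j LL := by
  have hp2 := hp.out.two_le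
  obtain ⟨m, hm⟩ : ∃ m : R[X], m = X ^ p + (- (C (zz ^ (2 * (p - 1))) * X) -
    C (zz ^ (p - 2) * zz ^ (p - 1) * (FF ^ p - NN ^ (p + 1)) - LL)) := ⟨_, rfl⟩
  have hdeg : (- (C (zz ^ (2 * (p - 1))) * X) -
    C (zz ^ (p - 2) * zz ^ (p - 1) * (FF ^ p - NN ^ (p + 1)) - LL) : R[X]).degree < p := by
    refine lt_of_le_of_lt (degree_sub_le _ _) ?_
    apply max_lt
    · rw [degree_neg]
      refine lt_of_le_of_lt (degree_C_mul_X_le _) ?_
      exact_mod_cast (by omega : 1 < p)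
    · refine lt_of_le_of_lt degree_C_le ?_
      exact_mod_cast (by omega : 0 < p)
  have hmd : m.degree = p := by
    rw [hm, degree_add_eq_left_of_degree_lt, degree_X_pow]
    rwa [degree_X_pow]
  have hj : Function.Injective (AdjoinRoot.of m) := by
    apply AdjoinRoot.of.injective_of_degree_ne_zero
    rw [hmd]
    exact_mod_cast hp.out.ne_zero
  have hch : CharP (AdjoinRoot m) p := charP_of_injective_ringHom hj p
  have hroot : (AdjoinRoot.root m) ^ p =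
      (AdjoinRoot.of m zz) ^ (2 * (p - 1)) * AdjoinRoot.root m +
        ((AdjoinRoot.of m zz) ^ (p - 2) * (AdjoinRoot.of m zz) ^ (p - 1) *
          ((AdjoinRoot.of m FF) ^ p - (AdjoinRoot.of m NN) ^ (p + 1)) - AdjoinRoot.of m LL) := by
    have h := congrArg (eval₂ (AdjoinRoot.of m) (AdjoinRoot.root m)) hm
    rw [AdjoinRoot.eval₂_root m] at h
    simp only [eval₂_add, eval₂_sub, eval₂_neg, eval₂_mul, eval₂_pow, eval₂_X, eval₂_C,
      map_sub, map_mul, map_pow] at h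
    linear_combination -h
  have hrel' : (AdjoinRoot.of m zz) ^ p * AdjoinRoot.of m LL + AdjoinRoot.of m NN +
      (AdjoinRoot.of m NN) ^ (p ^ 2 + p) = (AdjoinRoot.of m FF) ^ (p ^ 2) := by
    have := congrArg (AdjoinRoot.of m) hrel
    simpa only [map_add, map_mul, map_pow] using this
  obtain ⟨x, y, h1, h2, h3, h4⟩ := ext_idents p hrel' hroot
  refine ⟨AdjoinRoot m, inferInstance, AdjoinRoot.of m,
    MvPolynomial.eval₂Hom ((AdjoinRoot.of m).comp ι) ![x, y, AdjoinRoot.of m zz], hj, ?_, ?_, ?_,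
    ?_, ?_⟩
  · intro a; simp
  · simp
  · rw [map_FR]; simpa using h2
  · rw [map_NR]; simpa using h3
  · rw [map_LR]; simpa using h4

end

end Pool.Agent.H154R3.Ident
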