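import Mathlib

set_option autoImplicit false
set_option linter.unusedSectionVars false
set_option linter.unusedVariables false

namespace Pool.Agent.H154R3.Ident

variable (p : ℕ) [hp : Fact p.Prime]

section defs

variable {R : Type*} [CommRing R]

/-- `κ = z ^ (3 (p - 1))` -/
def kap (z : R) : R := (z ^ (p - 1)) ^ 3
/-- `κ / z` -/
def kap' (z : R) : R := z ^ (p - 2) * (z ^ (p - 1)) ^ 2
/-- `τ = (s ^ (p ^ 2 + p) - N ^ (p + 1)) / z` -/
def tau (z s N : R) : R :=
  kap' p z * s * N ^ p + kap p z ^ (p - 1) * kap' p z * s ^ p * N +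
    kap p z ^ p * kap' p z * s ^ (p + 1)
/-- `s = y ^ p + z x` -/
def sR (x y z : R) : R := y ^ p + z * x
/-- `F = y + s ^ (p + 1)` -/
def FR (x y z : R) : R := y + sR p x y z ^ (p + 1)
/-- `N = s ^ p - κ s` -/
def NR (x y z : R) : R := sR p x y z ^ p - kap p z * sR p x y z
/-- `M = F ^ p - N ^ (p + 1)` -/
def MR (x y z : R) : R := FR p x y z ^ p - NR p x y z ^ (p + 1)
/-- `σ = x - τ` -/
def sigR (x y z : R) : R := x - tau p z (sR p x y z) (NR p x y z)
/-- `L = - σ ^ p + z ^ (2 p - 3) s` -/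
def LR (x y z : R) : R := - sigR p x y z ^ p + z ^ (p - 2) * z ^ (p - 1) * sR p x y z
/-- image of `y` -/
def yT (x y z T : R) : R :=
  y - (z * T * sR p x y z ^ p + z ^ p * T ^ p * sR p x y z + z ^ (p + 1) * T ^ (p + 1))
/-- image of `x` -/
def xT (x y z T : R) : R :=
  x + T + z ^ (p - 1) * T ^ p * sR p x y z ^ (p ^ 2) +
    z ^ (p ^ 2 - 1) * T ^ (p ^ 2) * sR p x y z ^ p + z ^ (p ^ 2 + p - 1) * T ^ (p ^ 2 + p)

end defs

section idents

variable {R : Type*} [CommRing R] [CharP R p]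

lemma z_r (z : R) : z * z ^ (p - 1) = z ^ p := mul_pow_sub_one hp.out.ne_zero z

lemma z_r' (z : R) : z * z ^ (p - 2) = z ^ (p - 1) := by
  have h : p - 1 ≠ 0 := by have := hp.out.two_le; omega
  have h2 := mul_pow_sub_one h z
  have h3 : p - 1 - 1 = p - 2 := by omega
  rwa [h3] at h2

lemma z_kap' (z : R) : z * kap' p z = kap p z := by
  rw [kap', kap, ← mul_assoc, z_r']; ring

lemma z_tau {z s N : R} (h : s ^ p = N + kap p z * s) :
    z * tau p z s N = s ^ (p ^ 2 + p) - N ^ (p + 1) := by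
  have h1 : s ^ (p ^ 2 + p) = (N ^ p + kap p z ^ p * s ^ p) * (N + kap p z * s) := by
    have : s ^ (p ^ 2 + p) = (s ^ p) ^ p * s ^ p := by
      rw [← pow_mul, ← pow_add]; congr 1; ring
    rw [this]
    nth_rewrite 1 [h]
    rw [add_pow_char, mul_pow]
    nth_rewrite 2 [h]
    rfl
  have h2 : kap p z * kap p z ^ (p - 1) = kap p z ^ p := z_r p _
  have h3 := z_kap' p z
  rw [h1, tau]
  have e1 : z * (kap' p z * s * N ^ p + kap p z ^ (p - 1) * kap' p z * s ^ p * N +
    kap p z ^ p * kap' p z * s ^ (p + 1)) = (z * kap' p z) * s * N ^ p +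
    kap p z ^ (p - 1) * (z * kap' p z) * s ^ p * N + kap p z ^ p * (z * kap' p z) * s ^ (p + 1) := by
    ring
  rw [e1, h3]
  have e2 : kap p z ^ (p - 1) * kap p z * s ^ p * N = kap p z ^ p * s ^ p * N := by
    rw [← h2]; ring
  rw [e2]; ring

lemma NR_eq (x y z : R) : sR p x y z ^ p = NR p x y z + kap p z * sR p x y z := by
  rw [NR]; ring

lemma FR_pow (x y z : R) : FR p x y z ^ p = y ^ p + sR p x y z ^ (p ^ 2 + p) := by
  rw [FR, add_pow_char, ← pow_mul]; congr 2; ring

/-- `z σ = s - M` -/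
lemma z_sig (x y z : R) : z * sigR p x y z = sR p x y z - MR p x y z := by
  rw [sigR, mul_sub, z_tau p (NR_eq p x y z), MR, FR_pow]
  have : z * x = sR p x y z - y ^ p := by rw [sR]; ring
  rw [this]; ring

/-- `z ^ p L = M ^ p - N` -/
lemma z_L (x y z : R) : z ^ p * LR p x y z = MR p x y z ^ p - NR p x y z := by
  have h1 : z ^ p * sigR p x y z ^ p = sR p x y z ^ p - MR p x y z ^ p := by
    rw [← mul_pow, z_sig, sub_pow_char]
  have h2 : z ^ p * (z ^ (p - 2) * z ^ (p - 1)) = kap p z := by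
    rw [← z_r p z, kap]
    have : z * z ^ (p - 1) * (z ^ (p - 2) * z ^ (p - 1)) =
      (z * z ^ (p - 2)) * z ^ (p - 1) * z ^ (p - 1) := by ring
    rw [this, z_r']; ring
  rw [LR, mul_add, mul_neg, h1, ← mul_assoc, h2, NR_eq]
  ring

lemma rel (x y z : R) : z ^ p * LR p x y z + NR p x y z + NR p x y z ^ (p ^ 2 + p) =
    FR p x y z ^ (p ^ 2) := by
  have h1 : MR p x y z ^ p = FR p x y z ^ (p ^ 2) - NR p x y z ^ (p ^ 2 + p) := by
    rw [MR, sub_pow_char, ← pow_mul, ← pow_mul]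
    congr 2 <;> ring
  rw [z_L, h1]; ring

lemma sR_T (x y z T : R) : sR p (xT p x y z T) (yT p x y z T) z = sR p x y z + z * T := by
  have hp2 : p ^ 2 ≠ 0 := pow_ne_zero _ hp.out.ne_zero
  have e1 : z * z ^ (p - 1) = z ^ p := z_r p z
  have e2 : z * z ^ (p ^ 2 - 1) = z ^ (p ^ 2) := mul_pow_sub_one hp2 z
  have e3 : z * z ^ (p ^ 2 + p - 1) = z ^ (p ^ 2 + p) := mul_pow_sub_one (by omega) z
  have h1 : yT p x y z T ^ p = y ^ p - (z ^ p * T ^ p * sR p x y z ^ (p ^ 2) +
      z ^ (p ^ 2) * T ^ (p ^ 2) * sR p x y z ^ p + z ^ (p ^ 2 + p) * T ^ (p ^ 2 + p)) := by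
    rw [yT, sub_pow_char, add_pow_char, add_pow_char]
    simp only [mul_pow, ← pow_mul]
    have a1 : p * p = p ^ 2 := by ring
    have a2 : (p + 1) * p = p ^ 2 + p := by ring
    rw [a1, a2]
  have h2 : z * xT p x y z T = z * x + z * T + z ^ p * T ^ p * sR p x y z ^ (p ^ 2) +
      z ^ (p ^ 2) * T ^ (p ^ 2) * sR p x y z ^ p + z ^ (p ^ 2 + p) * T ^ (p ^ 2 + p) := by
    rw [xT, ← e1, ← e2, ← e3]; ring
  have h3 : sR p (xT p x y z T) (yT p x y z T) z = yT p x y z T ^ p + z * xT p x y z T := rfl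
  rw [h3, h1, h2]
  have h4 : sR p x y z = y ^ p + z * x := rfl
  linear_combination -h4

lemma FR_T (x y z T : R) : FR p (xT p x y z T) (yT p x y z T) z = FR p x y z := by
  have h3 : FR p (xT p x y z T) (yT p x y z T) z =
    yT p x y z T + sR p (xT p x y z T) (yT p x y z T) z ^ (p + 1) := rfl
  rw [h3, sR_T, pow_succ, add_pow_char, yT, FR]
  ring

end idents

section maps

variable {R S : Type*} [CommRing R] [CommRing S] (f : R →+* S) (x y z : R)

lemma map_kap : f (kap p z) = kap p (f z) := by simp [kap]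
lemma map_kap' : f (kap' p z) = kap' p (f z) := by simp [kap']
lemma map_tau (s N : R) : f (tau p z s N) = tau p (f z) (f s) (f N) := by
  simp [tau, map_kap, map_kap']
lemma map_sR : f (sR p x y z) = sR p (f x) (f y) (f z) := by simp [sR]
lemma map_FR : f (FR p x y z) = FR p (f x) (f y) (f z) := by simp [FR, map_sR]
lemma map_NR : f (NR p x y z) = NR p (f x) (f y) (f z) := by simp [NR, map_sR, map_kap]
lemma map_MR : f (MR p x y z) = MR p (f x) (f y) (f z) := by simp [MR, map_FR, map_NR]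
lemma map_sigR : f (sigR p x y z) = sigR p (f x) (f y) (f z) := by
  simp [sigR, map_sR, map_NR, map_tau]
lemma map_LR : f (LR p x y z) = LR p (f x) (f y) (f z) := by
  simp [LR, map_sR, map_sigR]
lemma map_xT (T : R) : f (xT p x y z T) = xT p (f x) (f y) (f z) (f T) := by
  simp [xT, map_sR]
lemma map_yT (T : R) : f (yT p x y z T) = yT p (f x) (f y) (f z) (f T) := by
  simp [yT, map_sR]

end maps

/-- two homomorphisms from `R` to a domain which agree on `z`, `s`, `F` agree on `x`, `y` -/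
lemma agree {R S : Type*} [CommRing R] [CommRing S] [IsDomain S] (f g : R →+* S) (x y z : R)
    (hz : f z = g z) (hz0 : f z ≠ 0) (hs : f (sR p x y z) = g (sR p x y z))
    (hF : f (FR p x y z) = g (FR p x y z)) : f x = g x ∧ f y = g y := by
  have hy : f y = g y := by
    have h1 : y = FR p x y z - sR p x y z ^ (p + 1) := by rw [FR]; ring
    rw [h1, map_sub, map_sub, map_pow, map_pow, hs, hF]
  refine ⟨?_, hy⟩
  have h1 : z * x = sR p x y z - y ^ p := by rw [sR]; ring
  have h2 : f z * f x = f z * g x := by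
    rw [← map_mul, h1, map_sub, map_pow, hs, hy, hz, ← map_mul, h1, map_sub, map_pow]
  exact mul_left_cancel₀ hz0 h2

end Pool.Agent.H154R3.Ident
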