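import Pool.Agent.H154R3.Alg

set_option autoImplicit false
set_option linter.unusedSectionVars false
set_option linter.unusedVariables false

namespace Pool.Agent.H154R3.Asanuma

open Polynomial

/-- A ring `A` over `k[F][N]` generated by `z, L` with `z ^ p L = f`, together with the
homomorphism to Laurent series in `z`. -/
structure Data (p : ℕ) (k : Type*) [Field k] (A : Type*) [CommRing A] [Algebra (P k) A] where
  z : A
  L : A
  rel : z ^ p * L = algebraMap (P k) A (fF p k)
  gen : Algebra.adjoin (P k) {z, L} = ⊤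
  β : A →+* R0 k
  βP : ∀ q : P k, β (algebraMap (P k) A q) = HahnSeries.C q
  βz : β z = HahnSeries.single 1 1

variable {p : ℕ} [hp : Fact p.Prime] {k : Type*} [Field k] [CharP k p]
variable {A : Type*} [CommRing A] [Algebra (P k) A]

/-- reduced exponents -/
abbrev Idx (p : ℕ) : Type := {a : ℕ × ℕ // a.1 < p ∨ a.2 = 0}

/-- weight of a reduced exponent -/
def wt (a : Idx p) : ℤ := (a.1.1 : ℤ) - p * a.1.2

lemma wt_injective : Function.Injective (wt (p := p)) := by
  rintro ⟨⟨i, j⟩, h⟩ ⟨⟨i', j'⟩, h'⟩ hw
  simp only [wt] at hw h h'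
  have hp0 : (0 : ℤ) < p := by exact_mod_cast hp.out.pos
  have key : (j : ℤ) = j' := by
    rcases lt_trichotomy (j : ℤ) j' with hlt | heq | hlt
    · exfalso
      have h1 : (j : ℤ) + 1 ≤ j' := hlt
      have h2 : (i' : ℤ) < p := by
        rcases h' with h' | h'
        · exact_mod_cast h'
        · omega
      nlinarith [Int.natCast_nonneg i]
    · exact heq
    · exfalso
      have h1 : (j' : ℤ) + 1 ≤ j := hlt
      have h2 : (i : ℤ) < p := by
        rcases h with h | h
        · exact_mod_cast h
        · omega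
      nlinarith [Int.natCast_nonneg i']
  have h3 : j = j' := by exact_mod_cast key
  subst h3
  have h4 : i = i' := by
    have : (i : ℤ) = i' := by linarith
    exact_mod_cast this
  subst h4
  rfl

lemma single_one_pow (n : ℕ) :
    (HahnSeries.single (1 : ℤ) (1 : P k) : R0 k) ^ n = HahnSeries.single (n : ℤ) 1 := by
  rw [HahnSeries.single_pow, one_pow, nsmul_one]

lemma single_solve (n : ℤ) (q : P k) {x : R0 k}
    (h : HahnSeries.single n (1 : P k) * x = HahnSeries.C q) :
    x = HahnSeries.single (-n) q := by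
  have h2 : HahnSeries.single (-n) (1 : P k) * (HahnSeries.single n (1 : P k) * x) = x := by
    rw [← mul_assoc, HahnSeries.single_mul_single, neg_add_cancel, mul_one]
    exact one_mul _
  rw [← h2, h]
  have h3 : (HahnSeries.C q : R0 k) = HahnSeries.single (0 : ℤ) q := rfl
  rw [h3, HahnSeries.single_mul_single, add_zero, one_mul]

lemma single_term (q f : P k) (m : ℤ) (i j : ℕ) :
    (HahnSeries.C q : R0 k) * ((HahnSeries.single (1 : ℤ) (1 : P k)) ^ i *
      (HahnSeries.single (-m) f) ^ j) =
      HahnSeries.single ((i : ℤ) - m * j) (q * f ^ j) := by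
  have h3 : (HahnSeries.C q : R0 k) = HahnSeries.single (0 : ℤ) q := rfl
  rw [single_one_pow, HahnSeries.single_pow, h3, HahnSeries.single_mul_single,
    HahnSeries.single_mul_single, one_mul]
  congr 2
  simp; ring

namespace Data

variable (D : Data p k A)

/-- basis element -/
def bas (a : Idx p) : A := D.z ^ a.1.1 * D.L ^ a.1.2

lemma z_mul_mem (v : A) (hv : v ∈ Submodule.span (P k) (Set.range D.bas)) :
    D.z * v ∈ Submodule.span (P k) (Set.range D.bas) := by
  induction hv using Submodule.span_induction with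
  | zero => rw [mul_zero]; exact Submodule.zero_mem _
  | add x y _ _ hx hy => rw [mul_add]; exact Submodule.add_mem _ hx hy
  | smul a x _ hx => rw [mul_smul_comm]; exact Submodule.smul_mem _ _ hx
  | mem x hx =>
    obtain ⟨⟨⟨i, j⟩, h⟩, rfl⟩ := hx
    simp only at h
    by_cases h1 : i + 1 < p ∨ j = 0
    · apply Submodule.subset_span
      refine ⟨⟨⟨i + 1, j⟩, h1⟩, ?_⟩
      simp only [bas]
      ring
    · push Not at h1
      obtain ⟨h1, h2⟩ := h1
      have h3 : i + 1 = p := by
        rcases h with h | h
        · omega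
        · exact absurd h h2
      obtain ⟨j', rfl⟩ := Nat.exists_eq_succ_of_ne_zero h2
      have e : D.z * (D.z ^ i * D.L ^ (j' + 1)) =
          fF p k • (D.bas ⟨⟨0, j'⟩, Or.inl hp.out.pos⟩) := by
        have h4 : D.z ^ p = D.z ^ i * D.z := by rw [← pow_succ, h3]
        rw [Algebra.smul_def, ← D.rel, h4]
        simp only [bas]
        ring
      have e' : D.z * D.bas ⟨(i, j'.succ), h⟩ = D.z * (D.z ^ i * D.L ^ (j' + 1)) := rfl
      rw [e', e]
      exact Submodule.smul_mem _ _ (Submodule.subset_span ⟨_, rfl⟩)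

lemma L_mul_mem (v : A) (hv : v ∈ Submodule.span (P k) (Set.range D.bas)) :
    D.L * v ∈ Submodule.span (P k) (Set.range D.bas) := by
  induction hv using Submodule.span_induction with
  | zero => rw [mul_zero]; exact Submodule.zero_mem _
  | add x y _ _ hx hy => rw [mul_add]; exact Submodule.add_mem _ hx hy
  | smul a x _ hx => rw [mul_smul_comm]; exact Submodule.smul_mem _ _ hx
  | mem x hx =>
    obtain ⟨⟨⟨i, j⟩, h⟩, rfl⟩ := hx
    simp only at h
    by_cases h1 : i < p
    · apply Submodule.subset_span
      refine ⟨⟨⟨i, j + 1⟩, Or.inl h1⟩, ?_⟩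
      simp only [bas]
      ring
    · have h2 : j = 0 := by
        rcases h with h | h
        · exact absurd h h1
        · exact h
      subst h2
      obtain ⟨r, hr⟩ := Nat.exists_eq_add_of_le (not_lt.mp h1)
      have e : D.L * (D.z ^ i * D.L ^ 0) =
          fF p k • (D.bas ⟨⟨r, 0⟩, Or.inr rfl⟩) := by
        rw [Algebra.smul_def, ← D.rel, hr]
        simp only [bas]
        ring
      have e' : D.L * D.bas ⟨(i, 0), h⟩ = D.L * (D.z ^ i * D.L ^ 0) := rfl
      rw [e', e]
      exact Submodule.smul_mem _ _ (Submodule.subset_span ⟨_, rfl⟩)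

lemma mem_span (c : A) : c ∈ Submodule.span (P k) (Set.range D.bas) := by
  have h : c ∈ Algebra.adjoin (P k) {D.z, D.L} := by rw [D.gen]; exact Algebra.mem_top
  have key : ∀ v ∈ Submodule.span (P k) (Set.range D.bas),
      c * v ∈ Submodule.span (P k) (Set.range D.bas) := by
    induction h using Algebra.adjoin_induction with
    | mem x hx =>
      intro v hv
      rcases hx with rfl | hx
      · exact D.z_mul_mem v hv
      · rw [Set.mem_singleton_iff] at hx
        rw [hx]
        exact D.L_mul_mem v hv
    | algebraMap r =>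
      intro v hv
      rw [← Algebra.smul_def]
      exact Submodule.smul_mem _ _ hv
    | add x y _ _ hx hy =>
      intro v hv
      rw [add_mul]
      exact Submodule.add_mem _ (hx v hv) (hy v hv)
    | mul x y _ _ hx hy =>
      intro v hv
      rw [mul_assoc]
      exact hx _ (hy v hv)
  have h1 : (1 : A) ∈ Submodule.span (P k) (Set.range D.bas) := by
    apply Submodule.subset_span
    exact ⟨⟨⟨0, 0⟩, Or.inr rfl⟩, by simp [bas]⟩
  have := key 1 h1
  rwa [mul_one] at this

/-- normal form -/
lemma nf (c : A) : ∃ l : Idx p →₀ P k,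
    c = ∑ a ∈ l.support, algebraMap (P k) A (l a) * (D.z ^ a.1.1 * D.L ^ a.1.2) := by
  obtain ⟨l, hl⟩ := (Finsupp.mem_span_range_iff_exists_finsupp).mp (D.mem_span c)
  refine ⟨l, ?_⟩
  rw [← hl, Finsupp.sum]
  apply Finset.sum_congr rfl
  intro a _
  rw [Algebra.smul_def]; rfl

lemma βL : D.β D.L = HahnSeries.single (-(p : ℤ)) (fF p k) := by
  have h : D.β D.z ^ p * D.β D.L = HahnSeries.C (fF p k) := by
    rw [← map_pow, ← map_mul, D.rel, D.βP]
  rw [D.βz, single_one_pow] at h
  exact single_solve _ _ h

lemma β_term (q : P k) (i j : ℕ) :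
    D.β (algebraMap (P k) A q * (D.z ^ i * D.L ^ j)) =
      HahnSeries.single ((i : ℤ) - p * j) (q * fF p k ^ j) := by
  rw [map_mul, map_mul, map_pow, map_pow, D.βz, D.βL, D.βP]
  exact single_term _ _ _ _ _

lemma β_injective : Function.Injective D.β := by
  rw [injective_iff_map_eq_zero]
  intro c hc
  obtain ⟨l, hl⟩ := D.nf c
  have h1 : ∀ b ∈ l.support, False := by
    intro b hb
    have h2 : (D.β c).coeff (wt b) = 0 := by rw [hc, HahnSeries.coeff_zero]
    rw [hl, map_sum] at h2
    rw [HahnSeries.coeff_sum, Finset.sum_eq_single b] at h2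
    · rw [β_term] at h2
      have h4 : (HahnSeries.single ((b.1.1 : ℤ) - p * b.1.2) (l b * fF p k ^ b.1.2)).coeff (wt b)
          = l b * fF p k ^ b.1.2 := HahnSeries.coeff_single_same _ _
      rw [h4] at h2
      have h5 : l b ≠ 0 := Finsupp.mem_support_iff.mp hb
      exact mul_ne_zero h5 (pow_ne_zero _ (fF_ne_zero p k)) h2
    · intro a _ hab
      rw [β_term]
      apply HahnSeries.coeff_single_of_ne
      intro h6
      exact hab (wt_injective h6.symm)
    · intro h; exact absurd hb h
  rw [hl]
  apply Finset.sum_eq_zero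
  intro a ha
  exact absurd (h1 a ha) id

end Data

end Pool.Agent.H154R3.Asanuma
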