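import Pool.Agent.H154R3.Inv

set_option autoImplicit false
set_option linter.unusedSectionVars false
set_option linter.unusedVariables false

namespace Pool.Agent.H154R3.Asanuma

open Polynomial

variable {p : ℕ} [hp : Fact p.Prime] {k : Type*} [Field k] [CharP k p]
variable {A : Type*} [CommRing A] [Algebra (P k) A]

/-- upper bound for orders from a nonzero coefficient -/
lemma order_bound {τ : ℚ} {h : (R0 k)[X]} {i : ℕ} {n : ℤ} {w : ℚ}
    (hc : (h.coeff i).coeff n ≠ 0) (hw : (n : ℚ) + (i : ℚ) * τ = w) (hG : Ge w (iota τ h)) :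
    iota τ h ≠ 0 ∧ (ofLex (iota τ h).order).1 = w ∧ (ofLex (iota τ h).order).2 ≤ -(i : ℤ) := by
  have h1 : (iota τ h).coeff (toLex ((n : ℚ) + (i : ℚ) * τ, -(i : ℤ))) ≠ 0 := by
    rwa [iota_coeff]
  have h0 : iota τ h ≠ 0 := HahnSeries.ne_zero_of_coeff_ne_zero h1
  have h2 := HahnSeries.order_le_of_coeff_ne_zero h1
  have h3 : (ofLex (iota τ h).order).1 ≤ w := by
    have := fst_le h2
    rw [← hw]
    exact this
  have h4 := Ge.order h0 hG
  refine ⟨h0, le_antisymm h3 h4, ?_⟩
  refine snd_le h2 ?_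
  have : (ofLex (toLex ((n : ℚ) + (i : ℚ) * τ, -(i : ℤ)) : Gam)).1 = w := hw
  rw [this]
  exact h4

lemma Ge.pow_zero' {x : H k} (hx : Ge 0 x) (n : ℕ) : Ge 0 (x ^ n) := by
  induction n with
  | zero =>
    rw [_root_.pow_zero]
    apply Ge.of_order
    rw [HahnSeries.order_one]
    exact le_refl _
  | succ n ih =>
    rw [pow_succ]
    have := ih.mul hx
    rwa [add_zero] at this

lemma Ge_const (τ : ℚ) (q : P k) : Ge 0 (iota τ (Polynomial.C (HahnSeries.C q))) := by
  apply Ge_iota
  intro i hi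
  have h0 : i = 0 := by
    by_contra h
    rw [Polynomial.coeff_C, if_neg h] at hi
    exact hi rfl
  subst h0
  rw [Polynomial.coeff_C_zero, HahnSeries.order_C]
  simp

namespace Data

variable (D : Data p k A)

/-- the four generators -/
noncomputable def gens (i : Fin 4) : A :=
  match i with
  | 0 => D.z
  | 1 => algebraMap (P k) A (C X)
  | 2 => algebraMap (P k) A X
  | 3 => D.L

/-- weights of the generators -/
def wgt (p : ℕ) (i : Fin 4) : ℤ :=
  match i with
  | 0 => 1
  | 1 => 0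
  | 2 => 0
  | 3 => -(p : ℤ)

lemma β_gens (i : Fin 4) : ∃ q : P k, q ≠ 0 ∧ D.β (D.gens i) = HahnSeries.single (wgt p i) q := by
  fin_cases i
  · exact ⟨1, one_ne_zero, D.βz⟩
  · refine ⟨C X, ?_, D.βP _⟩
    rw [Ne, C_eq_zero]; exact X_ne_zero
  · exact ⟨X, X_ne_zero, D.βP _⟩
  · exact ⟨fF p k, fF_ne_zero p k, D.βL⟩

lemma gens_rel : D.gens 0 ^ p * D.gens 3 + D.gens 2 + D.gens 2 ^ (p ^ 2 + p) =
    D.gens 1 ^ (p ^ 2) := by
  have h := D.rel
  rw [fF, map_sub, map_sub, map_pow, map_pow] at h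
  show D.z ^ p * D.L + algebraMap (P k) A X + algebraMap (P k) A X ^ (p ^ 2 + p) =
    algebraMap (P k) A (C X) ^ (p ^ 2)
  rw [h]; ring

/-- ring homomorphisms out of `A` are determined by constants and generators -/
lemma hom_ext {S : Type*} [CommRing S] (f g : A →+* S)
    (hk : ∀ a : k, f (algebraMap (P k) A (C (C a))) = g (algebraMap (P k) A (C (C a))))
    (hg : ∀ i, f (D.gens i) = g (D.gens i)) : f = g := by
  have hP : f.comp (algebraMap (P k) A) = g.comp (algebraMap (P k) A) := by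
    apply Polynomial.ringHom_ext
    · intro a
      have : (f.comp (algebraMap (P k) A)).comp (C : Polynomial k →+* P k) =
          (g.comp (algebraMap (P k) A)).comp (C : Polynomial k →+* P k) := by
        apply Polynomial.ringHom_ext
        · intro a; exact hk a
        · exact hg 1
      exact congrArg (fun φ => φ a) this
    · exact hg 2
  ext c
  have h : c ∈ Algebra.adjoin (P k) {D.z, D.L} := by rw [D.gen]; exact Algebra.mem_top
  induction h using Algebra.adjoin_induction with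
  | mem x hx =>
    rcases hx with rfl | hx
    · exact hg 0
    · rw [Set.mem_singleton_iff] at hx
      rw [hx]
      exact hg 3
  | algebraMap r => exact congrArg (fun φ => φ r) hP
  | add x y _ _ hx hy => rw [map_add, map_add, hx, hy]
  | mul x y _ _ hx hy => rw [map_mul, map_mul, hx, hy]

theorem no_invariant (ε : A →+* A[X]) (h0 : ∀ c, (ε c).coeff 0 = c)
    (hk : ∀ a : k, ε (algebraMap (P k) A (C (C a))) = C (algebraMap (P k) A (C (C a))))
    (hne : ∃ b, ε b ≠ C b) (c : A) (hc : ε c = C c)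
    (hcA : c ∉ Algebra.adjoin (P k) {D.z}) : False := by
  classical
  set h : Fin 4 → (R0 k)[X] := fun i => (ε (D.gens i)).map D.β with hh
  have hcoeff0 : ∀ i, (h i).coeff 0 = D.β (D.gens i) := by
    intro i
    rw [hh]
    simp only [Polynomial.coeff_map, h0]
  -- a nonconstant coefficient
  have hex : ∃ i n, n ≠ 0 ∧ (h i).coeff n ≠ 0 := by
    by_contra hcon
    push Not at hcon
    obtain ⟨b, hb⟩ := hne
    apply hb
    have : ε = (C : A →+* A[X]) := by
      apply D.hom_ext
      · exact hk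
      · intro i
        ext n
        by_cases hn : n = 0
        · subst hn; rw [h0, coeff_C_zero]
        · rw [coeff_C, if_neg hn]
          apply D.β_injective
          have := hcon i n hn
          rw [hh] at this
          simp only [Polynomial.coeff_map] at this
          rw [this, map_zero]
    rw [this]
  -- maximal slope
  set S : Finset (Σ _ : Fin 4, ℕ) :=
    (Finset.univ : Finset (Fin 4)).sigma (fun i => (h i).support.erase 0) with hS
  set slope : (Σ _ : Fin 4, ℕ) → ℚ :=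
    fun a => (((wgt p a.1 : ℤ) : ℚ) - (((h a.1).coeff a.2).order : ℚ)) / (a.2 : ℚ) with hslope
  have hmem : ∀ i n, n ≠ 0 → (h i).coeff n ≠ 0 → (⟨i, n⟩ : Σ _ : Fin 4, ℕ) ∈ S := by
    intro i n hn hc
    rw [hS, Finset.mem_sigma]
    refine ⟨Finset.mem_univ _, ?_⟩
    simp only [Finset.mem_erase, Polynomial.mem_support_iff]
    exact ⟨hn, hc⟩
  have hSne : S.Nonempty := by
    obtain ⟨i, n, hn, hc⟩ := hex
    exact ⟨⟨i, n⟩, hmem i n hn hc⟩
  obtain ⟨⟨i0, n0⟩, ha0, hmax⟩ := Finset.exists_max_image S slope hSne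
  have ha0' := ha0
  rw [hS, Finset.mem_sigma] at ha0'
  simp only [Finset.mem_erase, Polynomial.mem_support_iff] at ha0'
  obtain ⟨-, hn0, hc0⟩ := ha0'
  set τ : ℚ := slope ⟨i0, n0⟩ with hτ
  have hn0Q : (0 : ℚ) < n0 := by exact_mod_cast Nat.pos_of_ne_zero hn0
  have hB : (((h i0).coeff n0).order : ℚ) + (n0 : ℚ) * τ = (wgt p i0 : ℤ) := by
    rw [hτ, hslope]
    simp only
    field_simp
    ring
  have hord0 : ∀ i, (D.β (D.gens i)).order = wgt p i ∧ D.β (D.gens i) ≠ 0 := by
    intro i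
    obtain ⟨q, hq, hβ⟩ := D.β_gens i
    rw [hβ]
    exact ⟨HahnSeries.order_single hq, HahnSeries.single_ne_zero hq⟩
  have hA : ∀ i n, (h i).coeff n ≠ 0 →
      ((wgt p i : ℤ) : ℚ) ≤ (((h i).coeff n).order : ℚ) + (n : ℚ) * τ := by
    intro i n hn
    by_cases hn1 : n = 0
    · subst hn1
      rw [hcoeff0, (hord0 i).1]
      simp
    · have h1 := hmax _ (hmem i n hn1 hn)
      have hnQ : (0 : ℚ) < n := by exact_mod_cast Nat.pos_of_ne_zero hn1
      have h2 : (((wgt p i : ℤ) : ℚ) - (((h i).coeff n).order : ℚ)) / (n : ℚ) ≤ τ := h1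
      rw [div_le_iff₀ hnQ] at h2
      linarith
  -- the homomorphism to `H`
  set E : A →+* H k := (iota τ).comp ((mapRingHom D.β).comp ε) with hE
  have hEapp : ∀ a, E a = iota τ ((ε a).map D.β) := fun a => rfl
  have hEg : ∀ i, E (D.gens i) ≠ 0 ∧ (ofLex (E (D.gens i)).order).1 = (wgt p i : ℤ) ∧
      (ofLex (E (D.gens i)).order).2 ≤ 0 := by
    intro i
    have hG : Ge ((wgt p i : ℤ) : ℚ) (iota τ (h i)) := Ge_iota (hA i)
    have h1 : ((h i).coeff 0).coeff (wgt p i) ≠ 0 := by
      rw [hcoeff0]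
      obtain ⟨q, hq, hβ⟩ := D.β_gens i
      rw [hβ, HahnSeries.coeff_single_same]
      exact hq
    obtain ⟨b1, b2, b3⟩ := order_bound (τ := τ) h1 (by simp) hG
    exact ⟨b1, b2, le_trans b3 (by simp)⟩
  have hE0 : (ofLex (E (D.gens i0)).order).2 ≤ -(n0 : ℤ) := by
    have hG : Ge ((wgt p i0 : ℤ) : ℚ) (iota τ (h i0)) := Ge_iota (hA i0)
    have h1 : ((h i0).coeff n0).coeff (((h i0).coeff n0).order) ≠ 0 := by
      intro h2
      exact hc0 (HahnSeries.coeff_order_eq_zero.mp h2)
    exact (order_bound (τ := τ) h1 hB hG).2.2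
  -- elements of `k[F][N]`
  have hGP : ∀ q : P k, Ge 0 (E (algebraMap (P k) A q)) := by
    have hcst : ∀ a : k, Ge 0 (E (algebraMap (P k) A (C (C a)))) := by
      intro a
      rw [hEapp, hk, Polynomial.map_C, D.βP]
      exact Ge_const τ _
    have hF : Ge 0 (E (algebraMap (P k) A (C X))) := by
      have := (hEg 1).2.1
      apply Ge.of_order
      have h2 : (ofLex (E (D.gens 1)).order).1 = 0 := by rw [this]; simp [wgt]
      exact h2.ge
    have hN : Ge 0 (E (algebraMap (P k) A X)) := by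
      have := (hEg 2).2.1
      apply Ge.of_order
      have h2 : (ofLex (E (D.gens 2)).order).1 = 0 := by rw [this]; simp [wgt]
      exact h2.ge
    have hCa : ∀ a : Polynomial k, Ge 0 (E (algebraMap (P k) A (C a))) := by
      intro a
      induction a using Polynomial.induction_on' with
      | add a b ha hb => rw [C_add, map_add, map_add]; exact ha.add hb
      | monomial n r =>
        rw [← C_mul_X_pow_eq_monomial, C_mul, C_pow, map_mul, map_mul, map_pow, map_pow]
        have := (hcst r).mul (hF.pow_zero' n)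
        rwa [add_zero] at this
    intro q
    induction q using Polynomial.induction_on' with
    | add a b ha hb => rw [map_add, map_add]; exact ha.add hb
    | monomial n r =>
      rw [← C_mul_X_pow_eq_monomial, map_mul, map_mul, map_pow, map_pow]
      have := (hCa r).mul (hN.pow_zero' n)
      rwa [add_zero] at this
  have hEP : ∀ q : P k, q ≠ 0 → E (algebraMap (P k) A q) ≠ 0 ∧
      (ofLex (E (algebraMap (P k) A q)).order).1 = 0 ∧
      (ofLex (E (algebraMap (P k) A q)).order).2 ≤ 0 := by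
    intro q hq
    have h1 : (((ε (algebraMap (P k) A q)).map D.β).coeff 0).coeff 0 ≠ 0 := by
      rw [Polynomial.coeff_map, h0, D.βP]
      have : (HahnSeries.C q : R0 k).coeff 0 = q := HahnSeries.coeff_single_same _ _
      rw [this]
      exact hq
    obtain ⟨b1, b2, b3⟩ := order_bound (τ := τ) h1 (w := 0) (by simp) (hGP q)
    exact ⟨b1, b2, le_trans b3 (by simp)⟩
  -- the invariant `c`
  obtain ⟨l, hl⟩ := D.nf c
  obtain ⟨t, ht⟩ : ∃ t : Idx p → H k, ∀ a, t a =
      E (algebraMap (P k) A (l a) * (D.z ^ a.1.1 * D.L ^ a.1.2)) := ⟨_, fun _ => rfl⟩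
  have hterm : ∀ a ∈ l.support, t a ≠ 0 ∧ (ofLex (t a).order).1 = (wt a : ℤ) ∧
      (ofLex (t a).order).2 ≤ a.1.2 * (ofLex (E (D.gens 3)).order).2 := by
    intro a ha
    rw [ht]
    obtain ⟨q1, q2, q3⟩ := hEP (l a) (Finsupp.mem_support_iff.mp ha)
    obtain ⟨z1, z2, z3⟩ := hEg 0
    obtain ⟨L1, L2, L3⟩ := hEg 3
    change E D.z ≠ 0 at z1
    change (ofLex (E D.z).order).1 = ((1 : ℤ) : ℚ) at z2
    change (ofLex (E D.z).order).2 ≤ 0 at z3
    change E D.L ≠ 0 at L1
    change (ofLex (E D.L).order).1 = ((-(p : ℤ) : ℤ) : ℚ) at L2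
    change (ofLex (E D.L).order).2 ≤ 0 at L3
    have hz := pow_ne_zero a.1.1 z1
    have hL := pow_ne_zero a.1.2 L1
    have hzL := mul_ne_zero hz hL
    rw [map_mul, map_mul, map_pow, map_pow]
    refine ⟨mul_ne_zero q1 hzL, ?_, ?_⟩
    · rw [o1_mul q1 hzL, o1_mul hz hL, o1_pow, o1_pow, q2, z2, L2, wt]
      push_cast; ring
    · rw [o2_mul q1 hzL, o2_mul hz hL, o2_pow, o2_pow]
      have h5 : (a.1.1 : ℤ) * (ofLex (E D.z).order).2 ≤ 0 :=
        mul_nonpos_of_nonneg_of_nonpos (Int.natCast_nonneg _) z3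
      show _ ≤ (a.1.2 : ℤ) * (ofLex (E D.L).order).2
      linarith
  have hneg : ∃ a ∈ l.support, wt a < 0 := by
    by_contra hcon
    push Not at hcon
    apply hcA
    rw [hl]
    apply Subalgebra.sum_mem
    intro a ha
    have h1 := hcon a ha
    have h2 : a.1.2 = 0 := by
      by_contra h3
      have h4 := a.2
      have h5 : a.1.1 < p := by
        rcases h4 with h4 | h4
        · exact h4
        · exact absurd h4 h3
      rw [wt] at h1
      have h6 : (1 : ℤ) ≤ a.1.2 := by
        have := Nat.pos_of_ne_zero h3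
        exact_mod_cast this
      have h7 : (a.1.1 : ℤ) < p := by exact_mod_cast h5
      nlinarith
    rw [h2, _root_.pow_zero, mul_one]
    have hzm : D.z ∈ Algebra.adjoin (P k) {D.z} := Algebra.subset_adjoin (Set.mem_singleton D.z)
    exact Subalgebra.mul_mem _ (Subalgebra.algebraMap_mem _ _) (Subalgebra.pow_mem _ hzm _)
  obtain ⟨b, hb, hbneg⟩ := hneg
  obtain ⟨a, ha, hamin⟩ := Finset.exists_min_image l.support wt ⟨b, hb⟩
  have hawt : wt a < 0 := lt_of_le_of_lt (hamin b hb) hbneg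
  have ha2 : 1 ≤ a.1.2 := by
    by_contra h3
    have h4 : a.1.2 = 0 := by omega
    rw [wt, h4] at hawt
    simp at hawt
    omega
  obtain ⟨t1, t2, t3⟩ := hterm a ha
  obtain ⟨γ, hγ⟩ : ∃ γ, γ = (t a).order := ⟨_, rfl⟩
  rw [← hγ] at t2 t3
  have hEct : E c = ∑ a ∈ l.support, t a := by
    conv_lhs => rw [hl]
    rw [map_sum]
    exact Finset.sum_congr rfl fun a _ => (ht a).symm
  have hEc : (E c).coeff γ ≠ 0 := by
    rw [hEct, HahnSeries.coeff_sum, Finset.sum_eq_single a]
    · rw [hγ]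
      intro h6
      exact t1 (HahnSeries.coeff_order_eq_zero.mp h6)
    · intro a' ha' hne'
      obtain ⟨s1, s2, s3⟩ := hterm a' ha'
      have hG : Ge ((wt a' : ℤ) : ℚ) (t a') := Ge.of_order s2.ge
      apply hG
      rw [t2]
      have h6 := hamin a' ha'
      have h7 : wt a ≠ wt a' := fun h8 => hne' (wt_injective h8).symm
      have h8 : wt a < wt a' := lt_of_le_of_ne h6 h7
      exact_mod_cast h8
    · intro h6; exact absurd ha h6
  have hEc2 : (ofLex γ).2 = 0 := by
    by_contra h6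
    apply hEc
    rw [hEapp, hc, Polynomial.map_C, iota_C]
    exact iota0_coeff_of_snd_ne _ _ h6
  have hL2 : (ofLex (E (D.gens 3)).order).2 = 0 := by
    rw [hEc2] at t3
    have h6 := (hEg 3).2.2
    have h7 : (1 : ℤ) ≤ a.1.2 := by exact_mod_cast ha2
    nlinarith
  -- leading coefficient of `E L`
  have hLlc : (E (D.gens 3)).leadingCoeff = fF p k := by
    rw [HahnSeries.leadingCoeff_eq]
    have h6 : (E (D.gens 3)).order = toLex (((-(p : ℤ) : ℤ) : ℚ) + ((0 : ℕ) : ℚ) * τ, -((0 : ℕ) : ℤ)) := by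
      apply ofLex.injective
      apply Prod.ext
      · have := (hEg 3).2.1
        rw [this]
        simp [wgt]
      · rw [hL2]; simp
    rw [h6]
    have h7 : E (D.gens 3) = iota τ (h 3) := rfl
    rw [h7, iota_coeff, hcoeff0]
    show (D.β D.L).coeff (-(p : ℤ)) = fF p k
    rw [D.βL, HahnSeries.coeff_single_same]
  -- the relation
  have hrel : E (D.gens 0) ^ p * E (D.gens 3) + E (D.gens 2) + E (D.gens 2) ^ (p ^ 2 + p) =
      E (D.gens 1) ^ (p ^ 2) := by
    have := congrArg E D.gens_rel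
    rwa [map_add, map_add, map_mul, map_pow, map_pow, map_pow] at this
  obtain ⟨r0, r1, r2⟩ := core (hEg 0).1 (hEg 1).1 (hEg 2).1 hrel hLlc
    (by rw [(hEg 3).2.1]; simp [wgt]) hL2
    (by rw [(hEg 0).2.1]; simp [wgt]) (hEg 0).2.2
    (by rw [(hEg 1).2.1]; simp [wgt]) (hEg 1).2.2
    (by rw [(hEg 2).2.1]; simp [wgt]) (hEg 2).2.2
  have hall : ∀ i, (ofLex (E (D.gens i)).order).2 = 0 := by
    intro i
    fin_cases i
    · exact r0
    · exact r1
    · exact r2
    · exact hL2
  rw [hall i0] at hE0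
  have : 0 < n0 := Nat.pos_of_ne_zero hn0
  omega

end Data

end Pool.Agent.H154R3.Asanuma
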