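import Pool.Agent.H154R3.Main

set_option autoImplicit false
set_option linter.unusedSectionVars false
set_option linter.unusedVariables false

namespace Pool.Agent.H154R3.Asanuma

open Polynomial

section shift

variable {k : Type*} [Field k]

/-- the translation `X_i ↦ X_i + T` -/
noncomputable def sh (i : Fin 3) : MvPolynomial (Fin 3) k →ₐ[k] (MvPolynomial (Fin 3) k)[X] :=
  MvPolynomial.aeval (fun j => C (MvPolynomial.X j) + if j = i then X else 0)

lemma sh_X (i j : Fin 3) : sh (k := k) i (MvPolynomial.X j) =
    C (MvPolynomial.X j) + if j = i then X else 0 := by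
  simp [sh]

lemma sh_coeff_zero (i : Fin 3) (f : MvPolynomial (Fin 3) k) : (sh i f).coeff 0 = f := by
  induction f using MvPolynomial.induction_on with
  | C a =>
    have : sh i (MvPolynomial.C a) = C (MvPolynomial.C a) := by
      rw [sh, MvPolynomial.aeval_C]; rfl
    rw [this, coeff_C_zero]
  | add p q hp hq => rw [map_add, coeff_add, hp, hq]
  | mul_X p j hp =>
    rw [map_mul, mul_coeff_zero, hp, sh_X]
    by_cases h : j = i
    · simp [h]
    · simp [h]

end shift

variable {p : ℕ} [hp : Fact p.Prime] {k : Type*} [Field k] [CharP k p]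
variable {A : Type*} [CommRing A] [Algebra (P k) A]

lemma Data.orderTop_nonneg (D : Data p k A) (x : A) (hx : x ∈ Algebra.adjoin (P k) {D.z}) :
    0 ≤ (D.β x).orderTop := by
  induction hx using Algebra.adjoin_induction with
  | mem x hx =>
    rw [Set.mem_singleton_iff] at hx
    rw [hx, D.βz]
    refine le_trans ?_ HahnSeries.orderTop_single_le
    exact_mod_cast zero_le_one
  | algebraMap r =>
    rw [D.βP]
    have : (HahnSeries.C r : R0 k) = HahnSeries.single 0 r := rfl
    rw [this]
    exact HahnSeries.orderTop_single_le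
  | add x y _ _ hx hy =>
    rw [map_add]
    exact le_trans (le_min hx hy) HahnSeries.min_orderTop_le_orderTop_add
  | mul x y _ _ hx hy =>
    rw [map_mul, HahnSeries.orderTop_mul]
    exact add_nonneg hx hy

lemma Data.L_not_mem (D : Data p k A) : D.L ∉ Algebra.adjoin (P k) {D.z} := by
  intro h
  have h1 := D.orderTop_nonneg _ h
  rw [D.βL, HahnSeries.orderTop_single (fF_ne_zero p k)] at h1
  have h2 : (0 : ℤ) ≤ -(p : ℤ) := by exact_mod_cast h1
  have := hp.out.pos
  omega

/-- `A` is not a polynomial ring in three variables. -/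
theorem Data.not_iso [Algebra k A] [IsScalarTower k (P k) A] (D : Data p k A) :
    IsEmpty (A ≃ₐ[k] MvPolynomial (Fin 3) k) := by
  constructor
  intro e
  -- some variable is not in `k[z, F, N]`
  have hj : ∃ j : Fin 3, e.symm (MvPolynomial.X j) ∉ Algebra.adjoin (P k) {D.z} := by
    by_contra hcon
    push Not at hcon
    apply D.L_not_mem
    have key : ∀ f : MvPolynomial (Fin 3) k, e.symm f ∈ Algebra.adjoin (P k) {D.z} := by
      intro f
      induction f using MvPolynomial.induction_on with
      | C a =>
        have : e.symm (MvPolynomial.C a) = algebraMap (P k) A (algebraMap k (P k) a) := by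
          rw [← IsScalarTower.algebraMap_apply k (P k) A]
          exact e.symm.commutes a
        rw [this]
        exact Subalgebra.algebraMap_mem _ _
      | add p q hp hq => rw [map_add]; exact Subalgebra.add_mem _ hp hq
      | mul_X p j hp => rw [map_mul]; exact Subalgebra.mul_mem _ hp (hcon j)
    have := key (e D.L)
    rwa [e.symm_apply_apply] at this
  obtain ⟨j, hj⟩ := hj
  obtain ⟨i, hij⟩ : ∃ i : Fin 3, j ≠ i := ⟨j + 1, by fin_cases j <;> decide⟩
  set ε : A →+* A[X] := (mapRingHom (e.symm : MvPolynomial (Fin 3) k →+* A)).comp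
    (((sh i : MvPolynomial (Fin 3) k →ₐ[k] (MvPolynomial (Fin 3) k)[X]) :
      MvPolynomial (Fin 3) k →+* (MvPolynomial (Fin 3) k)[X]).comp
      (e : A →+* MvPolynomial (Fin 3) k)) with hε
  have hεapp : ∀ a, ε a = (sh i (e a)).map (e.symm : MvPolynomial (Fin 3) k →+* A) :=
    fun a => rfl
  refine D.no_invariant ε ?_ ?_ ?_ (e.symm (MvPolynomial.X j)) ?_ hj
  · intro c
    rw [hεapp, Polynomial.coeff_map, sh_coeff_zero]
    exact e.symm_apply_apply c
  · intro a
    have h1 : algebraMap (P k) A (C (C a)) = algebraMap k A a := by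
      rw [IsScalarTower.algebraMap_apply k (P k) A]; rfl
    rw [h1, hεapp, e.commutes, AlgHom.commutes]
    have h2 : algebraMap k (MvPolynomial (Fin 3) k)[X] a = C (algebraMap k _ a) := rfl
    rw [h2, Polynomial.map_C]
    congr 1
    exact e.symm.commutes a
  · refine ⟨e.symm (MvPolynomial.X i), ?_⟩
    rw [hεapp, e.apply_symm_apply, sh_X, if_pos rfl, Polynomial.map_add, Polynomial.map_X,
      Polynomial.map_C]
    intro h
    have h1 := congrArg (fun q : A[X] => q.coeff 1) h
    have hnt : (1 : A) ≠ 0 := by
      intro h0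
      have h2 := congrArg e h0
      rw [map_one, map_zero] at h2
      exact one_ne_zero h2
    simp [Polynomial.coeff_C] at h1
    exact hnt h1
  · rw [hεapp, e.apply_symm_apply, sh_X, if_neg hij, add_zero, Polynomial.map_C]
    rfl

end Pool.Agent.H154R3.Asanuma
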