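import Mathlib

set_option autoImplicit false
set_option linter.unusedSectionVars false
set_option linter.unusedVariables false

namespace Pool.Agent.H154R3.Asanuma

open HahnSeries Polynomial

/-- value group -/
abbrev Gam : Type := ℚ ×ₗ ℤ

/-- coefficient ring `k[F][N]` -/
abbrev P (k : Type*) [Field k] : Type _ := Polynomial (Polynomial k)

/-- Laurent series in `z` -/
abbrev R0 (k : Type*) [Field k] : Type _ := HahnSeries ℤ (P k)

/-- the big Hahn series ring -/
abbrev H (k : Type*) [Field k] : Type _ := HahnSeries Gam (P k)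

/-- the embedding `n ↦ (n, 0)` -/
def emb : ℤ →+ Gam where
  toFun n := toLex ((n : ℚ), (0 : ℤ))
  map_zero' := rfl
  map_add' a b := by
    rw [← toLex_add]
    simp

lemma emb_apply (n : ℤ) : emb n = toLex ((n : ℚ), (0 : ℤ)) := rfl

lemma emb_injective : Function.Injective emb := by
  intro a b h
  rw [emb_apply, emb_apply] at h
  have := congrArg (fun x => (ofLex x).1) h
  simpa using this

lemma emb_le (a b : ℤ) : emb a ≤ emb b ↔ a ≤ b := by
  rw [emb_apply, emb_apply, Prod.Lex.toLex_le_toLex]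
  simp only [Int.cast_lt, Int.cast_inj, le_refl, and_true]
  omega

variable {k : Type*} [Field k]

/-- `R0 → H` -/
noncomputable def iota0 : R0 k →+* H k := embDomainRingHom emb emb_injective emb_le

lemma iota0_coeff (x : R0 k) (n : ℤ) : (iota0 x).coeff (toLex ((n : ℚ), (0 : ℤ))) = x.coeff n := by
  have : (embDomain ⟨⟨emb, emb_injective⟩, emb_le _ _⟩ x).coeff (emb n) = x.coeff n :=
    embDomain_coeff
  exact this

lemma iota0_coeff_of_snd_ne (x : R0 k) (γ : Gam) (h : (ofLex γ).2 ≠ 0) :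
    (iota0 x).coeff γ = 0 := by
  have : (embDomain ⟨⟨emb, emb_injective⟩, emb_le _ _⟩ x).coeff γ = 0 := by
    apply embDomain_of_notMem_range
    rintro ⟨n, hn⟩
    apply h
    rw [← hn]
    rfl
  exact this

/-- `z ↦ z`, `T ↦` element of value `(τ, -1)` -/
noncomputable def iota (τ : ℚ) : (R0 k)[X] →+* H k :=
  eval₂RingHom iota0 (single (toLex (τ, (-1 : ℤ))) (1 : P k) : H k)

lemma tpow (τ : ℚ) (j : ℕ) :
    (single (toLex (τ, (-1 : ℤ))) (1 : P k)) ^ j = single (toLex ((j : ℚ) * τ, -(j : ℤ))) 1 := by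
  have h : j • (toLex (τ, (-1 : ℤ)) : Gam) = toLex (j • τ, j • (-1 : ℤ)) := rfl
  rw [single_pow, one_pow, h]
  simp

lemma iota_monomial (τ : ℚ) (j : ℕ) (r : R0 k) :
    iota τ (monomial j r) = iota0 r * single (toLex ((j : ℚ) * τ, -(j : ℤ))) 1 := by
  rw [iota, coe_eval₂RingHom, eval₂_monomial, tpow]

lemma iota_C (τ : ℚ) (r : R0 k) : iota τ (Polynomial.C r) = iota0 r := by
  rw [iota, coe_eval₂RingHom, eval₂_C]

lemma iota_coeff (τ : ℚ) (h : (R0 k)[X]) (i : ℕ) (n : ℤ) :
    (iota τ h).coeff (toLex ((n : ℚ) + (i : ℚ) * τ, -(i : ℤ))) = (h.coeff i).coeff n := by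
  induction h using Polynomial.induction_on' with
  | add p q hp hq => rw [map_add, HahnSeries.coeff_add, hp, hq, Polynomial.coeff_add, HahnSeries.coeff_add]
  | monomial j r =>
    rw [iota_monomial]
    have e : (toLex ((n : ℚ) + (i : ℚ) * τ, -(i : ℤ)) : Gam) =
        toLex ((n : ℚ) + ((i : ℚ) - j) * τ, (j : ℤ) - i) + toLex ((j : ℚ) * τ, -(j : ℤ)) := by
      rw [← toLex_add, Prod.mk_add_mk]
      congr 2
      · ring
      · ring
    rw [e, coeff_mul_single_add, mul_one]
    by_cases hij : j = i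
    · subst hij
      rw [Polynomial.coeff_monomial_same]
      simp only [sub_self, zero_mul, add_zero]
      exact iota0_coeff r n
    · rw [Polynomial.coeff_monomial, if_neg hij]
      rw [iota0_coeff_of_snd_ne]
      · simp
      · have h0 : (j : ℤ) - i ≠ 0 := by
          intro h1
          apply hij
          omega
        exact h0

/-- all exponents have first coordinate at least `w` -/
def Ge (w : ℚ) (x : H k) : Prop := ∀ γ : Gam, (ofLex γ).1 < w → x.coeff γ = 0

lemma Ge.add {w : ℚ} {x y : H k} (hx : Ge w x) (hy : Ge w y) : Ge w (x + y) := by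
  intro γ hγ
  rw [HahnSeries.coeff_add, hx γ hγ, hy γ hγ, add_zero]

lemma Ge.zero (w : ℚ) : Ge w (0 : H k) := fun γ _ => by simp

lemma Ge.mul {w w' : ℚ} {x y : H k} (hx : Ge w x) (hy : Ge w' y) : Ge (w + w') (x * y) := by
  intro γ hγ
  rw [HahnSeries.coeff_mul]
  apply Finset.sum_eq_zero
  rintro ⟨a, b⟩ hab
  have h1 : a + b = γ := (Finset.mem_antidiagonal.mp hab).2.2
  by_cases ha : (ofLex a).1 < w
  · rw [hx a ha, zero_mul]
  · have hb : (ofLex b).1 < w' := by
      have h2 : (ofLex γ).1 = (ofLex a).1 + (ofLex b).1 := by rw [← h1]; rfl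
      rw [h2] at hγ
      push Not at ha
      linarith
    rw [hy b hb, mul_zero]

lemma Ge.sum {w : ℚ} {ι : Type*} (s : Finset ι) (f : ι → H k) (h : ∀ i ∈ s, Ge w (f i)) :
    Ge w (∑ i ∈ s, f i) := by
  classical
  induction s using Finset.induction_on with
  | empty => simpa using Ge.zero w
  | insert a s ha ih =>
    rw [Finset.sum_insert ha]
    exact (h a (Finset.mem_insert_self a s)).add
      (ih fun i hi => h i (Finset.mem_insert_of_mem hi))

lemma Ge.of_order {w : ℚ} {x : H k} (h : w ≤ (ofLex x.order).1) : Ge w x := by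
  intro γ hγ
  apply coeff_eq_zero_of_lt_order
  rw [Prod.Lex.lt_iff]
  left
  linarith

lemma Ge.order {w : ℚ} {x : H k} (hx : x ≠ 0) (h : Ge w x) : w ≤ (ofLex x.order).1 := by
  by_contra hlt
  push Not at hlt
  exact hx (coeff_order_eq_zero.mp (h _ hlt))

lemma Ge_iota {τ w : ℚ} {h : (R0 k)[X]}
    (hh : ∀ i, h.coeff i ≠ 0 → w ≤ ((h.coeff i).order : ℚ) + (i : ℚ) * τ) :
    Ge w (iota τ h) := by
  rw [← Polynomial.sum_monomial_eq h, Polynomial.sum, map_sum]
  apply Ge.sum
  intro i hi
  rw [iota_monomial]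
  have h0 : h.coeff i ≠ 0 := by rwa [Polynomial.mem_support_iff] at hi
  have h1 : Ge ((h.coeff i).order : ℚ) (iota0 (h.coeff i)) := by
    intro γ hγ
    by_cases h2 : (ofLex γ).2 = 0
    · by_cases h3 : ∃ n : ℤ, (n : ℚ) = (ofLex γ).1
      · obtain ⟨n, hn⟩ := h3
        have e : γ = toLex ((n : ℚ), (0 : ℤ)) := by
          rw [hn, ← h2]; rfl
        rw [e, iota0_coeff]
        apply coeff_eq_zero_of_lt_order
        rw [← hn] at hγ
        exact_mod_cast hγ
      · have : (embDomain ⟨⟨emb, emb_injective⟩, emb_le _ _⟩ (h.coeff i)).coeff γ = 0 := by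
          apply embDomain_of_notMem_range
          rintro ⟨n, hn⟩
          apply h3
          refine ⟨n, ?_⟩
          rw [← hn]
          rfl
        exact this
    · exact iota0_coeff_of_snd_ne _ _ h2
  have h2 : Ge ((i : ℚ) * τ) (single (toLex ((i : ℚ) * τ, -(i : ℤ))) (1 : P k)) := by
    apply Ge.of_order
    rw [order_single one_ne_zero]
    exact le_refl _
  intro γ hγ
  exact (h1.mul h2) γ (lt_of_lt_of_le hγ (hh i h0))

/-- orders of products, componentwise -/
lemma o1_mul {x y : H k} (hx : x ≠ 0) (hy : y ≠ 0) :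
    (ofLex (x * y).order).1 = (ofLex x.order).1 + (ofLex y.order).1 := by
  rw [order_mul hx hy]; rfl

lemma o2_mul {x y : H k} (hx : x ≠ 0) (hy : y ≠ 0) :
    (ofLex (x * y).order).2 = (ofLex x.order).2 + (ofLex y.order).2 := by
  rw [order_mul hx hy]; rfl

lemma o1_pow {x : H k} (n : ℕ) :
    (ofLex (x ^ n).order).1 = n * (ofLex x.order).1 := by
  have h : (ofLex (n • x.order)).1 = n • (ofLex x.order).1 := rfl
  rw [order_pow, h]; simp

lemma o2_pow {x : H k} (n : ℕ) :
    (ofLex (x ^ n).order).2 = n * (ofLex x.order).2 := by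
  have h : (ofLex (n • x.order)).2 = n • (ofLex x.order).2 := rfl
  rw [order_pow, h]; simp

end Pool.Agent.H154R3.Asanuma
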